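import Pool.Agent.Lib.MP_7cdc3e_gt.C.T2.S0w
import Pool.Agent.Lib.MP_7cdc3e_gt.C.T4.Wz

/-!
# MP_7cdc3e_gt, C32, T2: the exports
-/

set_option autoImplicit false

open Module AS

namespace TightRP

namespace C3

namespace T2h

variable {F : Type} [Field F] {ev : W →ₗ[ℝ] (RP3 → ℝ)} {lam : W →ₗ[ℝ] ℝ}
  {w : H (⊥ : Subgroup (W ≃ᵢ W)) ∅ 1 (E2 ev lam)}

/-- `w² ≠ 0` at regular points -/
theorem w2 (h0 : S0wStmt) : W2Stmt := by
  intro F _ ev lam w h z _
  have h1 := h0 F ev lam w h z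
  rw [res_sq] at h1
  exact h1

/-- every point is a zero of a function of rank three -/
theorem f3_all (hK : LemKStmt) (h0 : S0wStmt) (h : WF F ev lam w) (z : RP3) : F3 ev (Nf ev z) :=
  f3_of_ne hK h (h0 F ev lam w h z)

/-- (S0) -/
theorem s0 (hN : NmStmt) (hT : TFStmt) (hW : WFStmt) (hK : LemKStmt) (h0 : S0wStmt) : S0Stmt := by
  intro F _ ev hs z
  obtain ⟨lam, hlam⟩ := hN F ev hs
  obtain ⟨w, hw⟩ := hW F ev lam (hT F ev lam hs hlam)
  obtain ⟨g, hg, hg3⟩ := (f3_all hK h0 hw z).rk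
  exact ⟨g, hg, hg3.2.2⟩

/-- a convex compact set of functions of type two carries no class of degree one -/
theorem conv_zero {B : Set W} (hB : IsCompact B) (hc : Convex ℝ B)
    (x : H (⊥ : Subgroup (W ≃ᵢ W)) ∅ 1 B) : x = 0 := by
  rcases B.eq_empty_or_nonempty with h | ⟨p, hp⟩
  · exact H_empty h x
  · exact (star_acy hB hp (hc.starConvex hp)).2.2 0 x

/-- two points have a common zero function which is not of rank one -/
theorem out (hN : NmStmt) (hT : TFStmt) (hW : WFStmt) (hK : LemKStmt) (hP : PropPStmt)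
    (h0 : S0wStmt) : OutStmt := by
  intro F _ ev hs z _ y _
  obtain ⟨lam, hlam⟩ := hN F ev hs
  obtain ⟨w, h⟩ := hW F ev lam (hT F ev lam hs hlam)
  by_contra hcon
  have h1 := (hP F ev lam w h _ (f3_all hK h0 h z)).2 y
  apply h1
  have h2 : SF ev lam (Nf ev z ∩ Nf ev y) = PF lam (Nf ev z ∩ Nf ev y) := by
    ext g
    constructor
    · rintro ⟨h3, -, h4⟩
      exact ⟨h3, h4⟩
    · rintro ⟨h3, h4⟩
      refine ⟨h3, ?_, h4⟩
      by_contra h5
      refine hcon ⟨g, h3.1, h3.2.2, ?_, h5⟩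
      rintro rfl
      rw [map_zero] at h4
      exact zero_ne_one h4
  have hf := h.fnz (Nf ev z) y (h.fnf z)
  have key : ∀ (A : Set W) (hA : A ⊆ E2 ev lam), A = PF lam (Nf ev z ∩ Nf ev y) →
      res hA 1 w = 0 := by
    rintro _ hA rfl
    exact conv_zero (PF_cpt h.toTF hf) (PF_convex hf) _
  exact key _ _ h2

end T2h

end C3

end TightRP
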