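import Pool.Agent.Lib.MP_7cdc3e_gt.C.T12.Defs

/-!
# MP_7cdc3e_gt, C32, T2: the statements of Lemma K, Lemma L, Proposition P, Theorem S0
-/

set_option autoImplicit false

open Module AS

namespace TightRP

namespace C3

/-- Lemma K -/
def LemKStmt : Prop := ∀ (F : Type) [Field F] (ev : W →ₗ[ℝ] (RP3 → ℝ)) (lam : W →ₗ[ℝ] ℝ)
  (w : H (⊥ : Subgroup (W ≃ᵢ W)) ∅ 1 (E2 ev lam)), WF F ev lam w →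
  ∀ Ψ, IsFace ev Ψ → (Xz ev Ψ).Nonempty → (∀ g ∈ Ψ, Ty ev 1 g) →
  (∀ (n : ℕ) (x : H (⊥ : Subgroup (W ≃ᵢ W)) ∅ (n + 2) (SF ev lam Ψ)), x = 0) ∧
  (res (SF_sub lam Ψ) 1 w = 0 →
    ∀ x : H (⊥ : Subgroup (W ≃ᵢ W)) ∅ 1 (SF ev lam Ψ), x = 0) ∧
  (res (SF_sub lam Ψ) 1 w ≠ 0 →
    Bas2 (⊥ : Subgroup (W ≃ᵢ W)) (SF ev lam Ψ) 1 (res (SF_sub lam Ψ) 1 w))

/-- Lemma L -/
def LemLStmt : Prop := ∀ (F : Type) [Field F] (ev : W →ₗ[ℝ] (RP3 → ℝ)) (lam : W →ₗ[ℝ] ℝ)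
  (w : H (⊥ : Subgroup (W ≃ᵢ W)) ∅ 1 (E2 ev lam)), WF F ev lam w →
  ∀ Φ, Min3 ev Φ → res (SF_sub lam Φ) 2 (pw w 2) ≠ 0 ∧
    ∀ z, res (SF_sub lam (Φ ∩ Nf ev z)) 1 w ≠ 0

/-- Proposition P -/
def PropPStmt : Prop := ∀ (F : Type) [Field F] (ev : W →ₗ[ℝ] (RP3 → ℝ)) (lam : W →ₗ[ℝ] ℝ)
  (w : H (⊥ : Subgroup (W ≃ᵢ W)) ∅ 1 (E2 ev lam)), WF F ev lam w →
  ∀ Φ, F3 ev Φ → Bas3 (⊥ : Subgroup (W ≃ᵢ W)) (SF ev lam Φ) (res (SF_sub lam Φ) 1 w)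
      (res (SF_sub lam Φ) 2 (pw w 2)) ∧
    ∀ z, res (SF_sub lam (Φ ∩ Nf ev z)) 1 w ≠ 0

/-- Theorem S0 -/
def S0wStmt : Prop := ∀ (F : Type) [Field F] (ev : W →ₗ[ℝ] (RP3 → ℝ)) (lam : W →ₗ[ℝ] ℝ)
  (w : H (⊥ : Subgroup (W ≃ᵢ W)) ∅ 1 (E2 ev lam)), WF F ev lam w →
  ∀ z, res (SF_sub lam (Nf ev z)) 2 (pw w 2) ≠ 0

end C3

end TightRP
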