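import Pool.Agent.Lib.MP_7cdc3e_gt.C.T2.L
import Pool.Agent.Lib.MP_7cdc3e_gt.C.T2.Stm

/-!
# MP_7cdc3e_gt, C32, T2: Lemma K and Lemma L, as stated in `Stm.lean`
-/

set_option autoImplicit false

open Module AS

namespace TightRP

namespace C3

namespace T2h

theorem okK : LemKStmt := by
  intro F _ ev lam w T Ψ hΨ _ h1
  exact ⟨(lemK T hΨ h1).1, lemK_zero T hΨ h1, lemK_ne T hΨ h1⟩

theorem okL : LemLStmt := by
  intro F _ ev lam w T Φ hΦ
  obtain ⟨_, h2, h3⟩ := lemL' T hΦ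
  refine ⟨?_, h3⟩
  rw [res_pw]
  exact h2

end T2h

end C3

end TightRP
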