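import Pool.Agent.Lib.MP_7cdc3e_gt.C.T2.Dbl

/-!
# MP_7cdc3e_gt, C32, T2: Proposition P (helper15)

Every face `Φ` of rank three: the normalized functions of type two in `Φ` have the cohomology basis
`1, w, w²`, and `w ≠ 0` on those which vanish at a given point.  From Lemma K and Lemma L.
-/

set_option autoImplicit false

open Module AS

namespace TightRP

namespace C3

namespace T2h

variable {F : Type} [Field F] {ev : W →ₗ[ℝ] (RP3 → ℝ)} {lam : W →ₗ[ℝ] ℝ}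

theorem Xz_anti {Φ Ψ : Set W} (h : Ψ ⊆ Φ) : Xz ev Φ ⊆ Xz ev Ψ := fun _ hx g hg => hx g (h hg)

theorem zr_ne {Φ : Set W} (h : (Xz ev Φ).Nonempty) {g : W} (hg : g ∈ Φ) : (Zr ev g).Nonempty := by
  obtain ⟨x, hx⟩ := h
  exact ⟨x, hx g hg⟩

/-- every face of rank three contains a minimal one -/
theorem exists_min3 (T : TF F ev lam) {Φ : Set W} (hΦ : F3 ev Φ) : ∃ L ⊆ Φ, Min3 ev L := by
  obtain ⟨n, hn⟩ : ∃ n, dm Φ ≤ n := ⟨_, le_rfl⟩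
  induction n generalizing Φ with
  | zero =>
    refine ⟨Φ, Set.Subset.refl _, { hΦ with min := ?_ }⟩
    intro Ψ hΨ hsub hne g hg
    have h1 := (T.fdm Φ Ψ hΦ.fc hΨ hsub hne).1
    omega
  | succ n ih =>
    by_cases hmin : ∀ Ψ, IsFace ev Ψ → Ψ ⊆ Φ → Ψ ≠ Φ → ∀ g ∈ Ψ, Ty ev 1 g
    · exact ⟨Φ, Set.Subset.refl _, { hΦ with min := hmin }⟩
    · push Not at hmin
      obtain ⟨Ψ, hΨ, hsub, hne, g, hg, hgt⟩ := hmin
      have h1 := (T.fdm Φ Ψ hΦ.fc hΨ hsub hne).1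
      have hx : (Xz ev Ψ).Nonempty := hΦ.ne.mono (Xz_anti hsub)
      have hF : F3 ev Ψ :=
        ⟨hΨ, hx, g, hg, (T.r3 g (hΨ.sub hg) (zr_ne hx hg)).2 hgt⟩
      obtain ⟨L, hL, hL'⟩ := ih hF (by omega)
      exact ⟨L, hL.trans hsub, hL'⟩

variable {w : H (⊥ : Subgroup (W ≃ᵢ W)) ∅ 1 (E2 ev lam)}

/-- restriction of a nonzero class from a larger set -/
theorem res_ne_mono {k : ℕ} {A B : Set W} (hAB : A ⊆ B) (hB : B ⊆ E2 ev lam)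
    (v : H (⊥ : Subgroup (W ≃ᵢ W)) ∅ k (E2 ev lam)) (h : res (hAB.trans hB) k v ≠ 0) :
    res hB k v ≠ 0 := by
  intro h1
  apply h
  rw [← res_res hAB hB, h1, map_zero]

/-- `w² ≠ 0` and `w ≠ 0` over every point -/
theorem P_ne (hL : LemLStmt) (hw : WF F ev lam w) {Φ : Set W} (hΦ : F3 ev Φ) :
    res (SF_sub lam Φ) 2 (pw w 2) ≠ 0 ∧ ∀ z, res (SF_sub lam (Φ ∩ Nf ev z)) 1 w ≠ 0 := by
  obtain ⟨L, hLΦ, hmin⟩ := exists_min3 hw.toTF hΦ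
  obtain ⟨h1, h2⟩ := hL F ev lam w hw L hmin
  refine ⟨res_ne_mono (SF_mono lam hLΦ) (SF_sub lam Φ) _ h1, fun z => ?_⟩
  exact res_ne_mono (SF_mono lam (Set.inter_subset_inter_left _ hLΦ)) (SF_sub lam _) _ (h2 z)

/-- the points outside of `M_3` -/
theorem ty_of_notMem (T : TF F ev lam) {Φ : Set W} (hΦ : IsFace ev Φ) {z : RP3}
    (hz : z ∉ M3 ev Φ) : ∀ g ∈ Φ ∩ Nf ev z, Ty ev 1 g := by
  intro g hg
  by_contra h1
  apply hz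
  exact ⟨g, hg.1, hg.2.2, (T.r3 g (hΦ.sub hg.1) ⟨z, hg.2.2⟩).2 h1⟩

/-- the total space of the functions of type two of a face -/
theorem tot (T : TF F ev lam) {Φ : Set W} (hΦ : IsFace ev Φ) :
    Tot (TS ev (SF ev lam Φ) Set.univ) (SF ev lam Φ) Sp := tot_TSp T.sys (SF_cpt T hΦ)

/-- the fibre of the second projection -/
theorem sec_SF {Φ : Set W} {x : E4} (hx : x ∈ Sp) :
    sec (TS ev (SF ev lam Φ) Set.univ) x = SF ev lam (Φ ∩ Nf ev (pj x)) := by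
  rw [sec_TS (show x ∈ up Set.univ from ⟨hx, trivial⟩), Zz_SF]

theorem sec_sub {Φ : Set W} {x : E4} (hx : x ∈ Sp) :
    sec (TS ev (SF ev lam Φ) Set.univ) x ⊆ SF ev lam Φ := by
  rw [sec_SF hx]
  exact SF_mono lam Set.inter_subset_left

theorem res_sec {Φ : Set W} {x : E4} (hx : x ∈ Sp) {k : ℕ}
    (v : H (⊥ : Subgroup (W ≃ᵢ W)) ∅ k (E2 ev lam)) (P : ∀ A : Set W, H (⊥ : Subgroup (W ≃ᵢ W)) ∅ k A → Prop)
    (h : P _ (res (SF_sub lam (Φ ∩ Nf ev (pj x))) k v)) :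
    P _ (res (sec_sub hx) k (res (SF_sub lam Φ) k v)) := by
  rw [res_res (sec_sub hx) (SF_sub lam Φ) ((sec_sub hx).trans (SF_sub lam Φ))]
  have key : ∀ A : Set W, A = SF ev lam (Φ ∩ Nf ev (pj x)) → ∀ hA : A ⊆ E2 ev lam,
      P _ (res hA k v) := by
    rintro _ rfl hA
    exact h
  exact key _ (sec_SF hx) _

theorem bas2_sec {Φ : Set W} {x : E4} (hx : x ∈ Sp)
    (h : Bas2 (⊥ : Subgroup (W ≃ᵢ W)) (SF ev lam (Φ ∩ Nf ev (pj x))) 1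
      (res (SF_sub lam (Φ ∩ Nf ev (pj x))) 1 w)) :
    Bas2 (⊥ : Subgroup (W ≃ᵢ W)) (sec (TS ev (SF ev lam Φ) Set.univ) x) 1
      (res (sec_sub hx) 1 (res (SF_sub lam Φ) 1 w)) :=
  res_sec hx w (fun A b => Bas2 (⊥ : Subgroup (W ≃ᵢ W)) A 1 b) h

theorem bas3_sec {Φ : Set W} {x : E4} (hx : x ∈ Sp)
    (h : Bas3 (⊥ : Subgroup (W ≃ᵢ W)) (SF ev lam (Φ ∩ Nf ev (pj x)))
      (res (SF_sub lam (Φ ∩ Nf ev (pj x))) 1 w) (res (SF_sub lam (Φ ∩ Nf ev (pj x))) 2 (pw w 2))) :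
    Bas3 (⊥ : Subgroup (W ≃ᵢ W)) (sec (TS ev (SF ev lam Φ) Set.univ) x)
      (res (sec_sub hx) 1 (res (SF_sub lam Φ) 1 w))
      (res (sec_sub hx) 2 (pw (res (SF_sub lam Φ) 1 w) 2)) := by
  have e1 : pw (res (SF_sub lam Φ) 1 w) 2 = res (SF_sub lam Φ) 2 (pw w 2) :=
    (res_pw (SF_sub lam Φ) w 2).symm
  rw [e1, res_res (sec_sub hx) (SF_sub lam Φ) ((sec_sub hx).trans (SF_sub lam Φ)),
    res_res (sec_sub hx) (SF_sub lam Φ) ((sec_sub hx).trans (SF_sub lam Φ))]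
  have key : ∀ A : Set W, A = SF ev lam (Φ ∩ Nf ev (pj x)) → ∀ hA : A ⊆ E2 ev lam,
      Bas3 (⊥ : Subgroup (W ≃ᵢ W)) A (res hA 1 w) (res hA 2 (pw w 2)) := by
    rintro _ rfl hA
    exact h
  exact key _ (sec_SF hx) _

/-- the square of `w` on the fibre over `x` -/
theorem rk_sq_iff (hw : WF F ev lam w) {Φ : Set W} (hΦ : IsFace ev Φ) {x : E4} (hx : x ∈ Sp) :
    rk (dbl hw (SF_cpt hw.toTF hΦ) (SF_sub lam Φ)).q.le
      (ov_sub (TS ev (SF ev lam Φ) Set.univ) Prod.snd {x}) 2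
      (pw (pull (Prod.fst : W × E4 → W) (dbl hw (SF_cpt hw.toTF hΦ) (SF_sub lam Φ)).ff.adE 1
        (res (SF_sub lam Φ) 1 w)) 2) = 0 ↔
    res (SF_sub lam (Φ ∩ Nf ev (pj x))) 2 (pw w 2) = 0 := by
  rw [← pull_pw, rk_zero_iff_sec _ (sec_sub hx)]
  have e1 : pw (res (SF_sub lam Φ) 1 w) 2 = res (SF_sub lam Φ) 2 (pw w 2) :=
    (res_pw (SF_sub lam Φ) w 2).symm
  rw [e1, res_res (sec_sub hx) (SF_sub lam Φ) ((sec_sub hx).trans (SF_sub lam Φ))]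
  have key : ∀ A : Set W, A = SF ev lam (Φ ∩ Nf ev (pj x)) → ∀ hA : A ⊆ E2 ev lam,
      (res hA 2 (pw w 2) = 0 ↔ res (SF_sub lam (Φ ∩ Nf ev (pj x))) 2 (pw w 2) = 0) := by
    rintro _ rfl hA
    exact Iff.rfl
  exact key _ (sec_SF hx) _

/-- the face of the functions of `Φ` which vanish at a point of `M_3` -/
theorem F3_inter (T : TF F ev lam) {Φ : Set W} (hΦ : IsFace ev Φ) {z : RP3} (hz : z ∈ M3 ev Φ) :
    F3 ev (Φ ∩ Nf ev z) := by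
  obtain ⟨g, hg, hgz, hgr⟩ := hz
  exact ⟨T.fnz Φ z hΦ, ⟨z, fun k hk => hk.2.2⟩, g, ⟨hg, hΦ.sub hg, hgz⟩, hgr⟩

/-- `M_3` is the set of the points over which `w²` does not vanish -/
theorem up_M3_eq (hK : LemKStmt) (hL : LemLStmt) (hw : WF F ev lam w) {Φ : Set W}
    (hΦ : IsFace ev Φ) : up (M3 ev Φ) = nzs (dbl hw (SF_cpt hw.toTF hΦ) (SF_sub lam Φ)).q Sp
      (pw (pull (Prod.fst : W × E4 → W) (dbl hw (SF_cpt hw.toTF hΦ) (SF_sub lam Φ)).ff.adE 1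
        (res (SF_sub lam Φ) 1 w)) 2) := by
  ext x
  constructor
  · rintro ⟨hx, hxM⟩
    refine ⟨hx, fun h0 => ?_⟩
    rw [rk_sq_iff hw hΦ hx] at h0
    exact (P_ne hL hw (F3_inter hw.toTF hΦ hxM)).1 h0
  · rintro ⟨hx, h0⟩
    refine ⟨hx, ?_⟩
    by_contra hxM
    apply h0
    rw [rk_sq_iff hw hΦ hx]
    exact (hK F ev lam w hw (Φ ∩ Nf ev (pj x)) (hw.toTF.fnz Φ (pj x) hΦ)
      ⟨pj x, fun k hk => hk.2.2⟩ (ty_of_notMem hw.toTF hΦ hxM)).1 0 _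

theorem ad_M3 (hK : LemKStmt) (hL : LemLStmt) (hw : WF F ev lam w) {Φ : Set W}
    (hΦ : IsFace ev Φ) : Ad (Pm E4) Sp (up (M3 ev Φ)) := by
  rw [up_M3_eq hK hL hw hΦ]
  exact nzs_ad (dbl hw (SF_cpt hw.toTF hΦ) (SF_sub lam Φ)).fg _ _

theorem closed_M3 (hK : LemKStmt) (hL : LemLStmt) (hw : WF F ev lam w) {Φ : Set W}
    (hΦ : IsFace ev Φ) : IsClosed (M3 ev Φ) := by
  have h1 := closed_image (ad_M3 hK hL hw hΦ)
  have h2 : pj '' up (M3 ev Φ) = M3 ev Φ := by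
    ext z
    constructor
    · rintro ⟨x, hx, rfl⟩
      exact hx.2
    · intro hz
      obtain ⟨x, hx, rfl⟩ := pj_surj z
      exact ⟨x, ⟨hx, hz⟩, rfl⟩
  rwa [h2] at h1

/-- `M_3` is acyclic -/
theorem acy_M3 (T : TF F ev lam) {Φ : Set W} (hΦ : F3 ev Φ) (hcl : IsClosed (M3 ev Φ)) :
    Acy (Pm E4) (up (M3 ev Φ)) := by
  obtain ⟨x₀, hx₀⟩ := hΦ.ne
  obtain ⟨g₀, hg₀, hr₀⟩ := hΦ.rk
  refine acy_star T.sys hcl (x₀ := x₀) ⟨g₀, hg₀, hx₀ g₀ hg₀, hr₀⟩ ?_ ?_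
  · rintro z ⟨g, hg, hgz, hgr⟩ s t hs ht hst
    obtain ⟨y, hy, h1⟩ := T.fill g hgr z hgz x₀ (hx₀ g hg) s t hs ht hst
    exact ⟨y, ⟨g, hg, hy, hgr⟩, h1⟩
  · rintro x ⟨g, _, hgx, hgr⟩ y _ hxy
    exact T.inj g hgr x hgx y hxy

theorem acy_Xz (T : TF F ev lam) {Φ : Set W} (hΦ : F3 ev Φ) : Acy (Pm E4) (up (Xz ev Φ)) := by
  obtain ⟨x₀, hx₀⟩ := hΦ.ne
  obtain ⟨g₀, hg₀, hr₀⟩ := hΦ.rk
  refine acy_star T.sys (Xz_closed T.sys Φ) hx₀ ?_ ?_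
  · intro z hz s t hs ht hst
    obtain ⟨y, hy, h1⟩ := T.fill g₀ hr₀ z (hz g₀ hg₀) x₀ (hx₀ g₀ hg₀) s t hs ht hst
    refine ⟨y, fun g hg => ?_, h1⟩
    rw [h1, hx₀ g hg, hz g hg, mul_zero, mul_zero, add_zero]
  · intro x hx y _ hxy
    exact T.inj g₀ hr₀ x (hx g₀ hg₀) y hxy

/-- the basis `1, w, w²` -/
theorem P_bas (hK : LemKStmt) (hL : LemLStmt) (hw : WF F ev lam w) {Φ : Set W} (hΦ : F3 ev Φ) :
    Bas3 (⊥ : Subgroup (W ≃ᵢ W)) (SF ev lam Φ) (res (SF_sub lam Φ) 1 w)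
      (res (SF_sub lam Φ) 2 (pw w 2)) := by
  obtain ⟨n, hn⟩ : ∃ n, dm Φ < n := ⟨_, Nat.lt_succ_self _⟩
  induction n generalizing Φ with
  | zero => omega
  | succ n ih =>
    have T := hw.toTF
    have hne := P_ne hL hw hΦ
    have hcl := closed_M3 hK hL hw hΦ.fc
    have hXM : Xz ev Φ ⊆ M3 ev Φ := by
      obtain ⟨g₀, hg₀, hr₀⟩ := hΦ.rk
      exact fun x hx => ⟨g₀, hg₀, hx g₀ hg₀, hr₀⟩
    have hP : PHyp (⊥ : Subgroup ((W × E4) ≃ᵢ (W × E4))) (TS ev (SF ev lam Φ) Set.univ) (Pm E4) Sp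
        Prod.snd (dbl hw (SF_cpt hw.toTF hΦ.fc) (SF_sub lam Φ)).q a₁
        (pull (Prod.fst : W × E4 → W) (dbl hw (SF_cpt hw.toTF hΦ.fc) (SF_sub lam Φ)).ff.adE 1
          (res (SF_sub lam Φ) 1 w)) (up (Xz ev Φ)) (up (M3 ev Φ)) := by
      refine ⟨ad_up (Xz_closed T.sys Φ), ad_M3 hK hL hw hΦ.fc, up_mono hXM, ?_, acy_Xz T hΦ,
        acy_M3 T hΦ hcl, ?_, ?_⟩
      · refine res_even T (Xz_closed T.sys Φ) ?_
        obtain ⟨g₀, hg₀, hr₀⟩ := hΦ.rk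
        exact hr₀.2.2.mono fun x hx => hx g₀ hg₀
      · rintro x ⟨hx, hxM⟩ hxX
        have hxX' : pj x ∉ Xz ev Φ := fun h => hxX ⟨hx, h⟩
        have hF := F3_inter T hΦ.fc hxM
        have hne' : Φ ∩ Nf ev (pj x) ≠ Φ := by
          intro h
          apply hxX'
          intro g hg
          rw [← h] at hg
          exact hg.2.2
        have hlt := (T.fdm Φ _ hΦ.fc hF.fc Set.inter_subset_left hne').1
        have hb := ih hF (by omega)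
        exact bas3_snd (dbl hw (SF_cpt hw.toTF hΦ.fc) (SF_sub lam Φ)).ff.adE (sec_sub hx) _
          (bas3_sec hx hb)
      · intro x hx hxM
        have hxM' : pj x ∉ M3 ev Φ := fun h => hxM ⟨hx, h⟩
        have hb := (hK F ev lam w hw (Φ ∩ Nf ev (pj x)) (T.fnz Φ (pj x) hΦ.fc)
          ⟨pj x, fun k hk => hk.2.2⟩ (ty_of_notMem T hΦ.fc hxM')).2.2 (hne.2 (pj x))
        exact bas2_snd (dbl hw (SF_cpt hw.toTF hΦ.fc) (SF_sub lam Φ)).ff.adE (sec_sub hx) _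
          (bas2_sec hx hb)
    have e1 : pw (res (SF_sub lam Φ) 1 w) 2 = res (SF_sub lam Φ) 2 (pw w 2) :=
      (res_pw (SF_sub lam Φ) w 2).symm
    rw [← e1]
    refine lemP (dbl hw (SF_cpt hw.toTF hΦ.fc) (SF_sub lam Φ)) (pj_ok T) ?_ hP
    rw [e1]
    exact hne.1

/-- **Proposition P** -/
theorem propP (hK : LemKStmt) (hL : LemLStmt) : PropPStmt := by
  intro F _ ev lam w hw Φ hΦ
  exact ⟨P_bas hK hL hw hΦ, (P_ne hL hw hΦ).2⟩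

end T2h

end C3

end TightRP
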