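import Pool.Agent.Lib.MP_7cdc3e_gt.C.T2.Wex
import Pool.Agent.Lib.MP_7cdc3e_gt.C.T4.Wz

/-!
# MP_7cdc3e_gt, C32, T2: the class `w` exists
-/

set_option autoImplicit false

namespace TightRP

namespace C3

namespace T2h

/-- the class `w` exists -/
theorem wfStmt : WFStmt := fun _ _ _ _ h => wf_exists h

end T2h

end C3

end TightRP
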