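import Pool.Agent.Lib.MP_7cdc3e_gt.C.T2.Sli
import Pool.Agent.Lib.AS.Bd

/-!
# MP_7cdc3e_gt, C32, T2: compactness, convexity, relative boundaries of faces
-/

set_option autoImplicit false

open Module AS

namespace TightRP

namespace C3

namespace T2h

variable {F : Type} [Field F] {ev : W →ₗ[ℝ] (RP3 → ℝ)} {lam : W →ₗ[ℝ] ℝ}

theorem lam_cont (lam : W →ₗ[ℝ] ℝ) : Continuous lam := lam.continuous_of_finiteDimensional

theorem PF_eq {Φ : Set W} : PF lam Φ = Φ ∩ {g | lam g = 1} := rfl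

theorem lam_closed : IsClosed {g : W | lam g = 1} := isClosed_eq (lam_cont lam) continuous_const

theorem PF_cpt (T : TF F ev lam) {Φ : Set W} (h : IsFace ev Φ) : IsCompact (PF lam Φ) := by
  refine T.cpt.of_isClosed_subset ((T.fcl Φ h).inter lam_closed) ?_
  exact fun g hg => ⟨h.sub hg.1, hg.2⟩

theorem PF_convex {Φ : Set W} (h : IsFace ev Φ) : Convex ℝ (PF lam Φ) := by
  intro x hx y hy a b ha hb hab
  refine ⟨h.add _ (h.smul a ha x hx.1) _ (h.smul b hb y hy.1), ?_⟩
  rw [map_add, map_smul, map_smul, hx.2, hy.2, smul_eq_mul, smul_eq_mul, mul_one, mul_one, hab]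

theorem SF_eq (T : TF F ev lam) {Φ : Set W} (h : IsFace ev Φ) :
    SF ev lam Φ = PF lam Φ ∩ {g | g ∈ Cn ev ∧ Ty ev 2 g} := by
  ext g
  constructor
  · rintro ⟨h1, h2, h3⟩
    exact ⟨⟨h1, h3⟩, h.sub h1, ((T.t2 g).mp h2).2.2⟩
  · rintro ⟨⟨h1, h3⟩, h4, h5⟩
    refine ⟨h1, (T.t2 g).mpr ⟨h4, ?_, h5⟩, h3⟩
    rintro rfl
    rw [map_zero] at h3
    exact zero_ne_one h3

theorem SF_cpt (T : TF F ev lam) {Φ : Set W} (h : IsFace ev Φ) : IsCompact (SF ev lam Φ) := by
  rw [SF_eq T h]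
  exact (PF_cpt T h).inter_right (T.clo 2)

theorem face_Cn : IsFace ev (Cn ev) where
  sub := fun _ h => h
  zero := fun x => by simp
  add := by
    intro g hg h hh x
    rw [map_add, Pi.add_apply]
    exact add_nonneg (hg x) (hh x)
  smul := by
    intro t ht g hg x
    rw [map_smul, Pi.smul_apply, smul_eq_mul]
    exact mul_nonneg ht (hg x)
  ext := fun g hg _ _ _ => hg

theorem E2_cpt (T : TF F ev lam) : IsCompact (E2 ev lam) := by
  rw [E2_eq]
  exact SF_cpt T face_Cn

/-- the normalized elements which vanish at `z` -/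
theorem Zz_PF {Φ : Set W} (h : IsFace ev Φ) (z : RP3) :
    Zz ev (PF lam Φ) z = PF lam (Φ ∩ Nf ev z) := by
  ext g
  constructor
  · rintro ⟨⟨h1, h2⟩, h3⟩
    exact ⟨⟨h1, h.sub h1, h3⟩, h2⟩
  · rintro ⟨⟨h1, h3⟩, h2⟩
    exact ⟨⟨h1, h2⟩, h3.2⟩

/-- the points where some element of a compact set vanishes -/
theorem MB_closed (h : CSys F ev) {B : Set W} (hB : IsCompact B) : IsClosed (MB ev B) := by
  have := cptRP3
  have h1 : IsCompact ((B ×ˢ (Set.univ : Set RP3)) ∩ {p : W × RP3 | ev p.1 p.2 = 0}) :=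
    (hB.prod isCompact_univ).inter_right (isClosed_eq (ev_cont h) continuous_const)
  have h2 : MB ev B = Prod.snd '' ((B ×ˢ (Set.univ : Set RP3)) ∩ {p : W × RP3 | ev p.1 p.2 = 0}) := by
    ext z
    constructor
    · rintro ⟨g, hg, hz⟩
      exact ⟨(g, z), ⟨⟨hg, trivial⟩, hz⟩, rfl⟩
    · rintro ⟨⟨g, z'⟩, ⟨⟨hg, _⟩, hz⟩, rfl⟩
      exact ⟨g, hg, hz⟩
  have := rTop.1
  rw [h2]
  exact (h1.image continuous_snd).isClosed

theorem Xz_closed (h : CSys F ev) (Φ : Set W) : IsClosed (Xz ev Φ) := by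
  have h1 : Xz ev Φ = ⋂ g ∈ Φ, {x | ev g x = 0} := by
    ext x
    simp only [Set.mem_iInter]
    rfl
  rw [h1]
  exact isClosed_biInter fun g _ => isClosed_eq (h.cont g) continuous_const

/-! ### relative interior and boundary -/

theorem RI_of_RInt (T : TF F ev lam) {Φ : Set W} (h : IsFace ev Φ) {g : W}
    (hg : g ∈ RInt (PF lam Φ)) : RI Φ g := by
  refine ⟨hg.1.1, fun y hy => ?_⟩
  by_cases h0 : y = 0
  · exact ⟨1, one_pos, by rw [h0, smul_zero, sub_zero]; exact hg.1.1⟩
  have hpos : 0 < lam y := T.nm y (h.sub hy) h0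
  have hy1 : (lam y)⁻¹ • y ∈ PF lam Φ := by
    refine ⟨h.smul _ (inv_nonneg.mpr hpos.le) y hy, ?_⟩
    rw [map_smul, smul_eq_mul, inv_mul_cancel₀ hpos.ne']
  obtain ⟨t, ht, h1⟩ := hg.2 _ hy1
  refine ⟨t / (1 + t) * (lam y)⁻¹, by positivity, ?_⟩
  have h2 : g - (t / (1 + t) * (lam y)⁻¹) • y =
      (1 + t)⁻¹ • (g - t • ((lam y)⁻¹ • y - g)) := by
    have h3 : (1 + t) ≠ 0 := by positivity
    have h4 : lam y ≠ 0 := hpos.ne'
    match_scalars
    · field_simp
      ring
    · field_simp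
  rw [h2]
  exact h.smul _ (by positivity) _ h1.1

theorem RInt_of_RI {Φ : Set W} (h : IsFace ev Φ) {g : W} (hg1 : lam g = 1) (hg : RI Φ g) :
    g ∈ RInt (PF lam Φ) := by
  refine ⟨⟨hg.1, hg1⟩, fun y hy => ?_⟩
  obtain ⟨t, ht, h1⟩ := hg.2 y hy.1
  -- `s = t' / (1 - t')`, `t' = min t (1/2)`
  refine ⟨min t (1 / 2), lt_min ht (by norm_num), ?_⟩
  set s := min t (1 / 2) with hs
  have hs0 : 0 < s := lt_min ht (by norm_num)
  have hst : s ≤ t := min_le_left _ _
  have h2 : g - s • (y - g) = (1 + s - s / t) • g + (s / t) • (g - t • y) := by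
    rw [smul_sub, smul_sub, smul_smul, div_mul_cancel₀ _ ht.ne', sub_smul, add_smul, one_smul]
    abel
  have h3 : s / t ≤ 1 := (div_le_one ht).mpr hst
  constructor
  · rw [h2]
    exact h.add _ (h.smul _ (by linarith) g hg.1) _ (h.smul _ (by positivity) _ h1)
  · rw [map_sub, map_smul, map_sub, hg1, hy.2, sub_self, smul_zero, sub_zero]

/-- the relative boundary of a minimal face of rank three -/
theorem RBd_eq (T : TF F ev lam) {Φ : Set W} (h : Min3 ev Φ) :
    RBd (PF lam Φ) = Sb ev lam Φ := by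
  ext g
  rw [P33.mem_RBd_iff]
  constructor
  · rintro ⟨⟨h1, h2⟩, h3⟩
    refine ⟨h1, h2, ?_⟩
    obtain ⟨f1, f2, f3⟩ := T.ffc g (h.fc.sub h1)
    by_cases he : Fc ev g = Φ
    · rw [he] at f2
      exact (h3 (RInt_of_RI h.fc h2 f2)).elim
    · exact h.min _ f1 (f3 Φ h.fc h1) he g f2.1
  · rintro ⟨h1, h2, h3⟩
    refine ⟨⟨h1, h2⟩, fun h4 => ?_⟩
    have h5 := RI_of_RInt T h.fc h4
    obtain ⟨k, hk, hk3⟩ := h.rk
    have h6 : ¬ Ty ev 1 k := (T.r3 k (h.fc.sub hk) hk3.2.1).mp hk3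
    apply h6
    refine T.mono g k 1 ?_ h3
    rw [← T.fxz Φ g h.fc h5]
    exact fun x hx => hx k hk

/-! ### the dimension of the normalized part -/

theorem vecSpan_eq (T : TF F ev lam) {Φ : Set W} (h : IsFace ev Φ) (hne : ∃ g ∈ Φ, g ≠ 0) :
    vectorSpan ℝ (PF lam Φ) = Submodule.span ℝ Φ ⊓ LinearMap.ker lam := by
  apply le_antisymm
  · rw [vectorSpan_def, Submodule.span_le]
    rintro _ ⟨x, hx, y, hy, rfl⟩
    refine ⟨?_, ?_⟩
    · exact Submodule.sub_mem _ (Submodule.subset_span hx.1) (Submodule.subset_span hy.1)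
    · change lam (x - y) = 0
      rw [map_sub, hx.2, hy.2, sub_self]
  · obtain ⟨q, hq, hq0⟩ := hne
    have hqpos : 0 < lam q := T.nm q (h.sub hq) hq0
    set p : W := (lam q)⁻¹ • q with hp
    have hpP : p ∈ PF lam Φ := by
      refine ⟨h.smul _ (inv_nonneg.mpr hqpos.le) q hq, ?_⟩
      rw [hp, map_smul, smul_eq_mul, inv_mul_cancel₀ hqpos.ne']
    -- every element of the span is in the vector span plus a multiple of `p`
    have key : ∀ x ∈ Submodule.span ℝ Φ, x - lam x • p ∈ vectorSpan ℝ (PF lam Φ) := by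
      intro x hx
      induction hx using Submodule.span_induction with
      | mem x hx =>
        by_cases h0 : x = 0
        · rw [h0, map_zero, zero_smul, sub_zero]
          exact Submodule.zero_mem _
        · have hxpos : 0 < lam x := T.nm x (h.sub hx) h0
          have h1 : (lam x)⁻¹ • x ∈ PF lam Φ := by
            refine ⟨h.smul _ (inv_nonneg.mpr hxpos.le) x hx, ?_⟩
            rw [map_smul, smul_eq_mul, inv_mul_cancel₀ hxpos.ne']
          have h2 := vsub_mem_vectorSpan ℝ h1 hpP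
          have h3 : x - lam x • p = lam x • ((lam x)⁻¹ • x -ᵥ p) := by
            rw [vsub_eq_sub, smul_sub, smul_smul (lam x) (lam x)⁻¹ x, mul_inv_cancel₀ hxpos.ne',
              one_smul]
          rw [h3]
          exact Submodule.smul_mem _ _ h2
      | zero =>
        rw [map_zero, zero_smul, sub_zero]
        exact Submodule.zero_mem _
      | add x y _ _ h1 h2 =>
        have h3 : x + y - lam (x + y) • p = (x - lam x • p) + (y - lam y • p) := by
          rw [map_add, add_smul]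
          abel
        rw [h3]
        exact Submodule.add_mem _ h1 h2
      | smul c x _ h1 =>
        have h3 : c • x - lam (c • x) • p = c • (x - lam x • p) := by
          rw [map_smul, smul_sub, smul_smul c (lam x) p, smul_eq_mul]
        rw [h3]
        exact Submodule.smul_mem _ _ h1
    rintro x ⟨hx, hx0⟩
    have h1 := key x hx
    have h2 : lam x = 0 := hx0
    rw [h2, zero_smul, sub_zero] at h1
    exact h1

theorem finrank_vecSpan (T : TF F ev lam) {Φ : Set W} (h : IsFace ev Φ) (hne : ∃ g ∈ Φ, g ≠ 0) :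
    finrank ℝ (vectorSpan ℝ (PF lam Φ)) + 1 = dm Φ := by
  rw [vecSpan_eq T h hne]
  unfold dm
  obtain ⟨q, hq, hq0⟩ := hne
  have hqpos : 0 < lam q := T.nm q (h.sub hq) hq0
  set V := Submodule.span ℝ Φ with hV
  set l : V →ₗ[ℝ] ℝ := lam.domRestrict V with hl
  have h1 : LinearMap.range l = ⊤ := by
    rw [LinearMap.range_eq_top]
    intro c
    refine ⟨⟨(c / lam q) • q, Submodule.smul_mem _ _ (Submodule.subset_span hq)⟩, ?_⟩
    change lam ((c / lam q) • q) = c
    rw [map_smul, smul_eq_mul, div_mul_cancel₀ _ hqpos.ne']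
  have h2 := LinearMap.finrank_range_add_finrank_ker l
  rw [h1, finrank_top, finrank_self] at h2
  have h3 : finrank ℝ (LinearMap.ker l) = finrank ℝ (V ⊓ LinearMap.ker lam : Submodule ℝ W) := by
    have h4 : LinearMap.ker l = (LinearMap.ker lam).comap V.subtype := by
      ext x
      rfl
    have h5 : (V ⊓ LinearMap.ker lam : Submodule ℝ W) =
        ((LinearMap.ker lam).comap V.subtype).map V.subtype := by
      rw [Submodule.map_comap_subtype]
    rw [h4, h5]
    exact (LinearEquiv.finrank_eq (Submodule.equivMapOfInjective V.subtype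
      V.injective_subtype _))
  rw [← h3]
  omega

end T2h

end C3

end TightRP
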