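import Pool.Agent.Lib.MP_7cdc3e_gt.C.T2.Pjs
import Pool.Agent.Lib.MP_7cdc3e_gt.C.T2.Stm

/-!
# MP_7cdc3e_gt, C32, T2: the two fibrations of the space of zeros over a compact set of functions of type two
-/

set_option autoImplicit false

open Module AS

namespace TightRP

namespace C3

namespace T2h

variable {F : Type} [Field F] {ev : W →ₗ[ℝ] (RP3 → ℝ)} {lam : W →ₗ[ℝ] ℝ}
  {w : H (⊥ : Subgroup (W ≃ᵢ W)) ∅ 1 (E2 ev lam)}

/-- the relation (0.4) over a compact set of functions of type two -/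
theorem rel_sub (h : WF F ev lam w) {B : Set W} (hB : IsCompact B) (hBE : B ⊆ E2 ev lam)
    (hT : Tot (TS ev B Set.univ) B Sp) : Rel hT (res hBE 1 w) := by
  have hE := tot_TSp h.sys (E2_cpt h.toTF)
  obtain ⟨h1, h2⟩ := h.wr hE
  have hi : TS ev B Set.univ ⊆ TS ev (E2 ev lam) Set.univ := TS_mono hBE (Set.Subset.refl _)
  have e1 : ∀ k, res hi k (ak k hE.in2) = ak k hT.in2 := by
    intro k
    unfold ak
    rw [res_pull (hf' := adm_snd (∅ : Set E4) hT.in2.sub) (h' := Set.Subset.refl Sp), res_self]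
  have e2 : ∀ (k : ℕ) (x : H (⊥ : Subgroup (W ≃ᵢ W)) ∅ k (E2 ev lam)),
      res hi k (hE.p k x) = hT.p k (res hBE k x) := by
    intro k x
    exact res_pull (adm_fst (∅ : Set W) hE.m1) (adm_fst (∅ : Set W) hT.m1) hi hBE x
  refine ⟨?_, ?_⟩
  · have h3 := congrArg (res hi 3) h1
    rw [e1] at h3
    rw [h3]
    unfold Tot.c3
    rw [map_add, map_add, e2, res_cup (p := 2) (q := 1) (n := 3) hi rfl,
      res_cup (p := 1) (q := 2) (n := 3) hi rfl, e1, e1, e2, e2, res_cu, res_sq]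
  · rw [← res_qu, h2, map_zero]

/-- the two fibrations -/
theorem dbl (h : WF F ev lam w) {B : Set W} (hB : IsCompact B) (hBE : B ⊆ E2 ev lam) :
    Dbl (Pm2 W) (⊥ : Subgroup ((W × E4) ≃ᵢ (W × E4))) (TS ev B Set.univ) B Prod.fst (Pm E4) Sp
      Prod.snd a₁ (res hBE 1 w) where
  ff := ff (tot_TSp h.sys hB)
  fg := fg (tot_TSp h.sys hB)
  q := qq (tot_TSp h.sys hB)
  b3 := by
    intro g hg
    have hT := tot_TSp h.sys hB
    have h2 := (h.t2 g).mp (hBE hg).1
    refine bas3_fst hT.in2 _ ?_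
    have h3 := h.z3 g h2.1 h2.2.1 h2.2.2
    have key : ∀ A : Set E4, A = up (Zr ev g) → ∀ hA : (0 : E4) ∉ A,
        Bas3 (Pm E4) A (ap 1 A hA) (ap 2 A hA) := by
      rintro _ rfl _
      exact h3
    exact key _ (fib_TS_univ hg) _
  rel3 := by
    have hT := tot_TSp h.sys hB
    have h1 := (rel_sub h hB hBE hT).a3
    rw [ak_eq_pw 3] at h1
    unfold Tot.c3 at h1
    rw [ak_eq_pw 2] at h1
    exact h1

end T2h

end C3

end TightRP
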