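import Pool.Agent.Lib.MP_7cdc3e_gt.C.T2.Wex

/-!
# MP_7cdc3e_gt, C32, T2: Lemma K
-/

set_option autoImplicit false

open Module AS

namespace TightRP

namespace C3

namespace T2h

variable {F : Type} [Field F] {ev : W →ₗ[ℝ] (RP3 → ℝ)} {lam : W →ₗ[ℝ] ℝ}
  {w : H (⊥ : Subgroup (W ≃ᵢ W)) ∅ 1 (E2 ev lam)}

/-- the relation on a part of the total space of the functions of type two -/
theorem relZ (T : WF F ev lam w) {Z : Set W} (hZ : IsCompact Z) (hsub : Z ⊆ E2 ev lam)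
    (hs : Adm (Pm2 W) ∅ (TS ev Z Set.univ) (Pm E4) ∅ Sp Prod.snd)
    (hf : Adm (Pm2 W) ∅ (TS ev Z Set.univ) (⊥ : Subgroup (W ≃ᵢ W)) ∅ Z Prod.fst) :
    pw (pull (Prod.snd : W × E4 → E4) hs 1 a₁) 3 =
      pull (Prod.fst : W × E4 → W) hf 3 (pw (res hsub 1 w) 3) +
      cupH ∅ 3 (pull (Prod.fst : W × E4 → W) hf 2 (pw (res hsub 1 w) 2))
        (pull (Prod.snd : W × E4 → E4) hs 1 a₁) +
      cupH ∅ 3 (pull (Prod.fst : W × E4 → W) hf 1 (res hsub 1 w))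
        (pw (pull (Prod.snd : W × E4 → E4) hs 1 a₁) 2) := by
  have t0 := tot_TSp T.sys (E2_cpt T.toTF)
  have t1 := tot_TSp T.sys hZ
  have hE : TS ev Z Set.univ ⊆ TS ev (E2 ev lam) Set.univ := TS_mono hsub (Set.Subset.refl _)
  have h1 := (T.wr t0).a3
  unfold Tot.c3 at h1
  rw [ak_eq, ak_eq, ak_eq, pw_one] at h1
  have h2 := congrArg (res hE 3) h1
  have f0 := (ff t0).adE
  have h3 : res hE 3 (pw (pull (Prod.snd : W × E4 → E4) (hsp t0.in2) 1 a₁) 3) =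
      res hE 3 (pull (Prod.fst : W × E4 → W) f0 3 (pw w 3) +
        cupH ∅ 3 (pull (Prod.fst : W × E4 → W) f0 2 (pw w 2))
          (pull (Prod.snd : W × E4 → E4) (hsp t0.in2) 1 a₁) +
        cupH ∅ 3 (pull (Prod.fst : W × E4 → W) f0 1 w)
          (pw (pull (Prod.snd : W × E4 → E4) (hsp t0.in2) 1 a₁) 2)) := h2
  rw [map_add, map_add, res_cup (p := 2) (q := 1) (n := 3) hE rfl,
    res_cup (p := 1) (q := 2) (n := 3) hE rfl, res_fst hE hsub f0 hf, res_fst hE hsub f0 hf,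
    res_fst hE hsub f0 hf, res_pw, res_pw, res_pw, res_pw, res_snd hE (hsp t0.in2) hs] at h3
  exact h3

/-- the fibres of the second projection of `TS ev B univ` -/
theorem sec_eq {B : Set W} {x : E4} (hx : x ∈ Sp) :
    sec (TS ev B Set.univ) x = Zz ev B (pj x) := sec_TS ⟨hx, trivial⟩

theorem acy_bot_eq {A A' : Set W} (h : A = A') : Acy (⊥ : Subgroup (W ≃ᵢ W)) A → Acy ⊥ A' := by
  subst h
  exact id

theorem convex_PF (T : TF F ev lam) {Φ : Set W} (h : IsFace ev Φ) (hne : (PF lam Φ).Nonempty) :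
    Acy (⊥ : Subgroup (W ≃ᵢ W)) (PF lam Φ) := convex_acy (PF_cpt T h) hne (PF_convex h)

theorem ty1_of_ty2 (T : TF F ev lam) {g : W} (h : Ty ev 2 g) : Ty ev 1 g :=
  fun h0 => h (T.pow _ 1 2 (by norm_num) h0)

/-- the mixed situation over the normalized part of a set of functions of rank at most two -/
theorem mix_of (T : TF F ev lam) {B Z : Set W} (hB : IsCompact B) (hZB : Z ⊆ B)
    (hZ : IsCompact Z) (hBC : B ⊆ Cn ev) (h0 : ∀ g ∈ B, g ≠ 0) (h1 : ∀ g ∈ B, Ty ev 1 g)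
    (h2 : ∀ g ∈ B, (g ∈ Z ↔ Ty ev 2 g))
    (hs : Adm (Pm2 W) ∅ (TS ev B Set.univ) (Pm E4) ∅ Sp Prod.snd) :
    Mix (Pm2 W) (Prod.fst ⁻¹' Z) (TS ev B Set.univ) (TS ev Z Set.univ) Z B Prod.fst
      (pull (Prod.snd : W × E4 → E4) hs 1 a₁) where
  fib := ffD (tot_TSp T.sys hB) hZ.isClosed
  ZS := hZB
  hF := (TS_fst hZB).symm
  b2 := by
    intro g hg hgZ
    refine bas2_fst (tot_TSp T.sys hB).in2 hs (bas2_eq (fib_TS_univ hg).symm (zero_notMem_up _) _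
      (T.z2 g (hBC hg) (h1 g hg) ?_))
    exact fun h => hgZ ((h2 g hg).mpr h)
  b3 := by
    intro g hg
    exact bas3_fst (tot_TSp T.sys hB).in2 hs (bas3_eq (fib_TS_univ (hZB hg)).symm
      (zero_notMem_up _) _ (T.z3 g (hBC (hZB hg)) (h0 g (hZB hg)) ((h2 g (hZB hg)).mp hg)))

/-- **Lemma K** -/
theorem lemK (T : WF F ev lam w) {Ψ : Set W} (hΨ : IsFace ev Ψ) (h1 : ∀ g ∈ Ψ, Ty ev 1 g) :
    (∀ (n : ℕ) (x : H (⊥ : Subgroup (W ≃ᵢ W)) ∅ (n + 2) (SF ev lam Ψ)), x = 0) ∧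
    ((∀ x : H (⊥ : Subgroup (W ≃ᵢ W)) ∅ 1 (SF ev lam Ψ), x = 0) ∨
      Bas2 (⊥ : Subgroup (W ≃ᵢ W)) (SF ev lam Ψ) 1 (res (SF_sub lam Ψ) 1 w)) := by
  have T' := T.toTF
  have hB := PF_cpt T' hΨ
  have hZ := SF_cpt T' hΨ
  have hZB : SF ev lam Ψ ⊆ PF lam Ψ := fun g hg => ⟨hg.1, hg.2.2⟩
  rcases (PF lam Ψ).eq_empty_or_nonempty with he | hne
  · have h2 : SF ev lam Ψ = ∅ := Set.eq_empty_of_subset_empty (hZB.trans he.subset)
    exact ⟨fun n x => H_empty h2 x, Or.inl fun x => H_empty h2 x⟩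
  have hlne : ∀ g : W, lam g = 1 → g ≠ 0 := by
    rintro g hg rfl
    rw [map_zero] at hg
    exact zero_ne_one hg
  have t1 := tot_TSp T.sys hB
  have hs := hsp t1.in2
  have hm := mix_of T' hB hZB hZ (fun g hg => hΨ.sub hg.1) (fun g hg => hlne g hg.2)
    (fun g hg => h1 g hg.1) (fun g hg => by
      constructor
      · exact fun h => ((T.t2 g).mp h.2.1).2.2
      · exact fun h => ⟨hg.1, (T.t2 g).mpr ⟨hΨ.sub hg.1, hlne g hg.2, h⟩, hg.2⟩) hs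
  have hS : ∀ (n : ℕ) (x : H (⊥ : Subgroup (W ≃ᵢ W)) ∅ (n + 1) (PF lam Ψ)), x = 0 :=
    (convex_PF T' hΨ hne).2.2
  -- the cohomology of the total space
  have hacy : ∀ x ∈ up (MB ev (PF lam Ψ)), Acy (⊥ : Subgroup ((W × E4) ≃ᵢ (W × E4)))
      (ov (TS ev (PF lam Ψ) Set.univ) Prod.snd {x}) := by
    intro x hx
    obtain ⟨g, hg, hgx⟩ := hx.2
    apply acy_snd
    refine acy_bot_eq ((sec_eq hx.1).trans (Zz_PF hΨ (pj x))).symm
      (convex_PF T' (T.fnz Ψ (pj x) hΨ) ⟨g, ?_⟩)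
    rw [← Zz_PF hΨ]
    exact ⟨hg, hgx⟩
  have hMBc := MB_closed T.sys hB
  have t2 := tot_TS' T.sys hB hMBc (Set.Subset.refl _)
  have hbij := LHa' (fg t2) (qq t2) (fun x hx _ => hacy x hx)
  have hE4 : ∀ (n : ℕ) (Y : H (Pm2 W) ∅ (n + 4) (TS ev (PF lam Ψ) Set.univ)), Y = 0 := by
    intro n Y
    obtain ⟨y, rfl⟩ := (hbij (n + 4)).2 Y
    rw [top_of T' (ad_up hMBc) (Or.inl (by omega)) y, map_zero]
  refine ⟨fun n x => hm.vanish hS (fun Y => hE4 n Y) x, ?_⟩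
  by_cases hMB : MB ev (PF lam Ψ) = Set.univ
  · right
    have hbij' := LHa' (fg t1) (qq t1) (fun x hx _ => hacy x ⟨hx, by rw [hMB]; trivial⟩)
    have hgen : ∀ (n : ℕ) (Y : H (Pm2 W) ∅ n (TS ev (PF lam Ψ) Set.univ)),
        Y = 0 ∨ Y = pw (pull (Prod.snd : W × E4 → E4) hs 1 a₁) n := by
      intro n Y
      obtain ⟨y, rfl⟩ := (hbij' n).2 Y
      rcases (pj_ok T').gen n y with h3 | h3
      · left
        rw [h3, map_zero]
      · right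
        rw [h3, pull_pw]
    refine hm.basis hS (res (SF_sub lam Ψ) 1 w) ?_ (hgen 2) (hgen 3) hE4 ?_
    · have hE : TS ev (SF ev lam Ψ) Set.univ ⊆ TS ev (PF lam Ψ) Set.univ :=
        TS_mono hZB (Set.Subset.refl _)
      have t3 := tot_TSp T.sys hZ
      have h3 := relZ T hZ (SF_sub lam Ψ) (hsp t3.in2) hm.fibZ.adE
      rw [res_pw, res_pw, res_snd hE hs (hsp t3.in2)]
      exact h3
    · rw [← pull_pw]
      intro h3
      apply (pj_ok T').a3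
      apply (hbij' 3).1
      rw [map_zero]
      exact h3
  · left
    have hE3 : ∀ Y : H (Pm2 W) ∅ 3 (TS ev (PF lam Ψ) Set.univ), Y = 0 := by
      intro Y
      obtain ⟨y, rfl⟩ := (hbij 3).2 Y
      rw [top_of T' (ad_up hMBc) (Or.inr ⟨le_rfl, ?_⟩) y, map_zero]
      intro h3
      apply hMB
      ext z
      obtain ⟨x, hx, rfl⟩ := pj_surj z
      have h4 : x ∈ up (MB ev (PF lam Ψ)) := by
        rw [h3]
        exact hx
      exact ⟨fun _ => trivial, fun _ => h4.2⟩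
    exact fun x => hm.vanish (j := 1) hS hE3 x

/-- if `w` does not vanish then `1, w` is a basis -/
theorem lemK_ne (T : WF F ev lam w) {Ψ : Set W} (hΨ : IsFace ev Ψ) (h1 : ∀ g ∈ Ψ, Ty ev 1 g)
    (hw : res (SF_sub lam Ψ) 1 w ≠ 0) :
    Bas2 (⊥ : Subgroup (W ≃ᵢ W)) (SF ev lam Ψ) 1 (res (SF_sub lam Ψ) 1 w) :=
  (lemK T hΨ h1).2.resolve_left fun h => hw (h _)

/-- if `w` vanishes then the first cohomology vanishes -/
theorem lemK_zero (T : WF F ev lam w) {Ψ : Set W} (hΨ : IsFace ev Ψ) (h1 : ∀ g ∈ Ψ, Ty ev 1 g)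
    (hw : res (SF_sub lam Ψ) 1 w = 0) (x : H (⊥ : Subgroup (W ≃ᵢ W)) ∅ 1 (SF ev lam Ψ)) :
    x = 0 := by
  rcases (lemK T hΨ h1).2 with h | h
  · exact h x
  · exact absurd hw h.2.2.2.1

end T2h

end C3

end TightRP
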