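import Pool.Agent.Lib.MP_7cdc3e_gt.C.T2.K

/-!
# MP_7cdc3e_gt, C32, T2: Lemma L
-/

set_option autoImplicit false

open Module AS

namespace TightRP

namespace C3

namespace T2h

variable {F : Type} [Field F] {ev : W →ₗ[ℝ] (RP3 → ℝ)} {lam : W →ₗ[ℝ] ℝ}
  {w : H (⊥ : Subgroup (W ≃ᵢ W)) ∅ 1 (E2 ev lam)}

/-- the relative interior of a face of rank three -/
theorem F3.ri (T : TF F ev lam) {Φ : Set W} (h : F3 ev Φ) :
    ∃ g, RI Φ g ∧ Xz ev Φ = Zr ev g ∧ Rk3 ev g := by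
  obtain ⟨g, hg⟩ := T.fri Φ h.fc
  have h1 := T.fxz Φ g h.fc hg
  refine ⟨g, hg, h1, ?_⟩
  have hcn := h.fc.sub hg.1
  have hne : (Zr ev g).Nonempty := h1 ▸ h.ne
  rw [T.r3 g hcn hne]
  obtain ⟨k, hk, hk3⟩ := h.rk
  have h6 : ¬ Ty ev 1 k := (T.r3 k (h.fc.sub hk) hk3.2.1).mp hk3
  intro h7
  apply h6
  refine T.mono g k 1 ?_ h7
  rw [← h1]
  exact fun x hx => hx k hk

theorem F3.even (T : TF F ev lam) {Φ : Set W} (h : F3 ev Φ) : Even (Xz ev Φ) := by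
  obtain ⟨g, _, h1, h2⟩ := F3.ri T h
  rw [h1]
  exact h2.2.2

theorem F3.acy (T : TF F ev lam) {Φ : Set W} (h : F3 ev Φ) : Acy (Pm E4) (up (Xz ev Φ)) := by
  obtain ⟨g, _, h1, h2⟩ := F3.ri T h
  rw [h1]
  obtain ⟨x₀, hx₀⟩ := h2.2.1
  have hc : IsClosed (Zr ev g) := isClosed_eq (T.sys.cont g) continuous_const
  exact acy_star T.sys hc hx₀ (fun z hz s t hs ht hst => T.fill g h2 z hz x₀ hx₀ s t hs ht hst)
    (fun y hy z _ hyz => T.inj g h2 y hy z hyz)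

theorem F3.ne_zero (T : TF F ev lam) {Φ : Set W} (h : F3 ev Φ) : ∃ g ∈ Φ, g ≠ 0 := by
  by_contra hcon
  push Not at hcon
  have h1 := T.j3 Φ h.fc h.rk
  have h2 : Submodule.span ℝ Φ = ⊥ := by
    rw [Submodule.span_eq_bot]
    exact hcon
  unfold dm at h1
  rw [h2, finrank_bot] at h1
  omega

/-- the two fibrations over a set of functions of type two -/
theorem dbl_of (T : WF F ev lam w) {Z : Set W} (hZ : IsCompact Z) (hsub : Z ⊆ E2 ev lam) :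
    Dbl (Pm2 W) ⊥ (TS ev Z Set.univ) Z Prod.fst (Pm E4) Sp Prod.snd a₁ (res hsub 1 w) where
  ff := ff (tot_TSp T.sys hZ)
  fg := fg (tot_TSp T.sys hZ)
  q := qq (tot_TSp T.sys hZ)
  b3 := by
    intro g hg
    have h1 := (T.t2 g).mp (hsub hg).1
    exact bas3_fst (tot_TSp T.sys hZ).in2 _ (bas3_eq (fib_TS_univ hg).symm
      (zero_notMem_up _) _ (T.z3 g h1.1 h1.2.1 h1.2.2))
  rel3 := relZ T hZ hsub _ _

theorem sec_SF {Φ : Set W} {x : E4} (hx : x ∈ Sp) :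
    sec (TS ev (SF ev lam Φ) Set.univ) x = SF ev lam (Φ ∩ Nf ev (pj x)) :=
  (sec_eq hx).trans (Zz_SF lam Φ (pj x))

theorem van_bot_eq {A A' : Set W} (h : A = A') {n : ℕ}
    (hA : ∀ y : H (⊥ : Subgroup (W ≃ᵢ W)) ∅ n A, y = 0)
    (y : H (⊥ : Subgroup (W ≃ᵢ W)) ∅ n A') : y = 0 := by
  subst h
  exact hA y

theorem res_ne_eq {A A' B : Set W} (h : A = A') (hA : A ⊆ B) (hA' : A' ⊆ B) {n : ℕ}
    (y : H (⊥ : Subgroup (W ≃ᵢ W)) ∅ n B) : res hA n y = 0 → res hA' n y = 0 := by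
  subst h
  exact id

theorem bas2_sec_eq {A A' B : Set W} (h : A = A') (hA : A ⊆ B) (hA' : A' ⊆ B)
    (y : H (⊥ : Subgroup (W ≃ᵢ W)) ∅ 1 B) :
    Bas2 (⊥ : Subgroup (W ≃ᵢ W)) A 1 (res hA 1 y) → Bas2 ⊥ A' 1 (res hA' 1 y) := by
  subst h
  exact id

/-- vanishing of `w` on the fibre of the second projection -/
theorem rk_w (T : WF F ev lam w) {Φ : Set W} (hΦ : IsFace ev Φ) {x : E4} (hx : x ∈ Sp) :
    rk (bot_le : ⊥ ≤ Pm2 W) (ov_sub (TS ev (SF ev lam Φ) Set.univ) Prod.snd {x}) 1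
      (pull (Prod.fst : W × E4 → W) (ff (tot_TSp T.sys (SF_cpt T.toTF hΦ))).adE 1
        (res (SF_sub lam Φ) 1 w)) = 0 ↔ res (SF_sub lam (Φ ∩ Nf ev (pj x))) 1 w = 0 := by
  have hsub : sec (TS ev (SF ev lam Φ) Set.univ) x ⊆ SF ev lam Φ := fun g hg => hg.1
  rw [rk_zero_iff_sec _ hsub, res_res _ _ (hsub.trans (SF_sub lam Φ))]
  exact ⟨res_ne_eq (sec_SF hx) _ _ w, res_ne_eq (sec_SF hx).symm _ _ w⟩

/-- vanishing of `w²` on the fibre of the second projection -/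
theorem rk_w2 (T : WF F ev lam w) {Φ : Set W} (hΦ : IsFace ev Φ) {x : E4} (hx : x ∈ Sp) :
    rk (bot_le : ⊥ ≤ Pm2 W) (ov_sub (TS ev (SF ev lam Φ) Set.univ) Prod.snd {x}) 2
      (pw (pull (Prod.fst : W × E4 → W) (ff (tot_TSp T.sys (SF_cpt T.toTF hΦ))).adE 1
        (res (SF_sub lam Φ) 1 w)) 2) = 0 ↔
      pw (res (SF_sub lam (Φ ∩ Nf ev (pj x))) 1 w) 2 = 0 := by
  have hsub : sec (TS ev (SF ev lam Φ) Set.univ) x ⊆ SF ev lam Φ := fun g hg => hg.1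
  rw [← pull_pw, ← res_pw, rk_zero_iff_sec _ hsub, res_res _ _ (hsub.trans (SF_sub lam Φ)),
    ← res_pw]
  exact ⟨res_ne_eq (sec_SF hx) _ _ _, res_ne_eq (sec_SF hx).symm _ _ _⟩

/-- proper faces of a minimal face of rank three -/
theorem Min3.sub (T : TF F ev lam) {L : Set W} (h : Min3 ev L) {z : RP3} (hz : z ∉ Xz ev L) :
    ∀ g ∈ L ∩ Nf ev z, Ty ev 1 g := by
  refine h.min _ (T.fnz L z h.fc) Set.inter_subset_left ?_
  intro h1
  apply hz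
  intro g hg
  rw [← h1] at hg
  exact hg.2.2

/-- **Lemma L** -/
theorem lemL' (T : WF F ev lam w) {L : Set W} (hL : Min3 ev L) :
    dm L = 6 ∧ pw (res (SF_sub lam L) 1 w) 2 ≠ 0 ∧
      ∀ z, res (SF_sub lam (L ∩ Nf ev z)) 1 w ≠ 0 := by
  have T' := T.toTF
  have h6 := T.j3 L hL.fc hL.rk
  obtain ⟨j, hj⟩ : ∃ j, dm L = j + 4 := ⟨dm L - 4, by omega⟩
  have hj2 : 2 ≤ j := by omega
  have hfr := finrank_vecSpan T' hL.fc (F3.ne_zero T' hL.toF3)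
  have hB : IsCompact (Sb ev lam L) := by
    rw [← RBd_eq T' hL]
    exact RBd_compact (PF_cpt T' hL.fc) (PF_convex hL.fc)
  have hex : ∃ s, Bas2 (⊥ : Subgroup (W ≃ᵢ W)) (Sb ev lam L) (j + 2) s := by
    rw [← RBd_eq T' hL]
    exact bd_bas (PF_cpt T' hL.fc) (PF_convex hL.fc) (j + 1) (by omega)
  obtain ⟨e, he⟩ := hex
  have hZ := SF_cpt T' hL.fc
  have hZB : SF ev lam L ⊆ Sb ev lam L :=
    fun g hg => ⟨hg.1, hg.2.2, ty1_of_ty2 T' ((T.t2 g).mp hg.2.1).2.2⟩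
  have hlne : ∀ g : W, lam g = 1 → g ≠ 0 := by
    rintro g hg rfl
    rw [map_zero] at hg
    exact zero_ne_one hg
  have t1 := tot_TSp T.sys hB
  have hs := hsp t1.in2
  have hm := mix_of T' hB hZB hZ (fun g hg => hL.fc.sub hg.1) (fun g hg => hlne g hg.2.1)
    (fun g hg => hg.2.2) (fun g hg => by
      constructor
      · exact fun h => ((T.t2 g).mp h.2.1).2.2
      · exact fun h => ⟨hg.1, (T.t2 g).mpr ⟨hL.fc.sub hg.1, hlne g hg.2.1, h⟩, hg.2.1⟩) hs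
  have hMBc := MB_closed T.sys hB
  have t2 := tot_TS' T.sys hB hMBc (Set.Subset.refl _)
  have he0 : e ≠ 0 := he.2.2.2.1
  have hBne : (Sb ev lam L).Nonempty := by
    by_contra hcon
    exact he0 (H_empty (Set.not_nonempty_iff_eq_empty.mp hcon) e)
  have hXM : Xz ev L ⊆ MB ev (Sb ev lam L) := by
    intro x hx
    obtain ⟨g, hg⟩ := hBne
    exact ⟨g, hg, hx g hg.1⟩
  have hXc := Xz_closed T.sys L
  have hA : Ad (Pm E4) (up (MB ev (Sb ev lam L))) (up (Xz ev L)) :=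
    ⟨up_compact hXc, up_iv _, up_mono hXM⟩
  have hacyX := (F3.acy T' hL.toF3).2.2
  have hMtop : ∀ (n : ℕ) (v : H (Pm E4) (up (Xz ev L)) (n + 4) (up (MB ev (Sb ev lam L)))),
      v = 0 := by
    intro n v
    obtain ⟨u, rfl⟩ := rel_ex (n := n + 3) (prsA hA (fg t2).adM hA.sub) v
      (top_of T' (ad_up hMBc) (Or.inl (by omega)) _)
    rw [hacyX (n + 2) u, map_zero]
  have hea : cupH ∅ (j + 3) (pull (Prod.fst : W × E4 → W) hm.fib.adE0 (j + 2) e)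
      (pull (Prod.snd : W × E4 → E4) hs 1 a₁) = 0 := by
    set y := cupH ∅ (j + 3) (pull (Prod.fst : W × E4 → W) hm.fib.adE0 (j + 2) e)
      (pull (Prod.snd : W × E4 → E4) hs 1 a₁) with hy
    have hares : res (ov_sub (TS ev (Sb ev lam L) Set.univ) Prod.snd (up (Xz ev L))) 1
        (pull (Prod.snd : W × E4 → E4) hs 1 a₁) = 0 := by
      rw [res_pull hs ((fg t1).part (ad_up hXc)).adE _ (up_sub _), res_even T' hXc
        (F3.even T' hL.toF3), map_zero]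
    have hyA : res (ov_sub (TS ev (Sb ev lam L) Set.univ) Prod.snd (up (Xz ev L))) (j + 3) y = 0 := by
      rw [hy, res_cup (p := j + 2) (q := 1) (n := j + 3) _ rfl, hares,
        czero_right (p := j + 2) (q := 1) (n := j + 3) rfl]
    obtain ⟨y', hy'⟩ := res_ex ((fg t2).prs1 hA) y hyA
    obtain ⟨v, hv⟩ := (LHa' ((fg t2).oneD hA) (qq t2) (fun x hx hxA => by
      have hxS : x ∈ Sp := up_sub _ hx
      have hxX : pj x ∉ Xz ev L := fun h => hxA ⟨hxS, h⟩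
      apply acy_snd
      have hF := T.fnz L (pj x) hL.fc
      obtain ⟨g, hg, hgx⟩ := hx.2
      have hSP : sec (TS ev (Sb ev lam L) Set.univ) x = PF lam (L ∩ Nf ev (pj x)) := by
        rw [sec_eq hxS]
        ext k
        constructor
        · rintro ⟨⟨k1, k2, k3⟩, k4⟩
          exact ⟨⟨k1, hL.fc.sub k1, k4⟩, k2⟩
        · rintro ⟨⟨k1, k3⟩, k2⟩
          exact ⟨⟨k1, k2, Min3.sub T' hL hxX k ⟨k1, k3⟩⟩, k3.2⟩
      refine acy_bot_eq hSP.symm (convex_PF T' hF ⟨g, ⟨hg.1, hL.fc.sub hg.1, hgx⟩, hg.2.1⟩))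
      (j + 3)).2 y'
    obtain ⟨i, rfl⟩ : ∃ i, j = i + 1 := ⟨j - 1, by omega⟩
    rw [← hy', ← hv, hMtop i v, map_zero, map_zero]
  obtain ⟨x, hx⟩ := hm.lstep e he0 hea
  have hd := dbl_of T hZ (SF_sub lam L)
  have hLH : LHyp ⊥ (TS ev (SF ev lam L) Set.univ) (Pm E4) Sp Prod.snd hd.q a₁
      (pull Prod.fst hd.ff.adE 1 (res (SF_sub lam L) 1 w)) (up (Xz ev L)) := by
    refine ⟨ad_up hXc, res_even T' hXc (F3.even T' hL.toF3), hacyX, ?_, ?_, ?_⟩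
    · intro z hz hzA n x
      have hF := T.fnz L (pj z) hL.fc
      have hzX : pj z ∉ Xz ev L := fun h => hzA ⟨hz, h⟩
      exact van_snd (van_bot_eq (sec_SF hz).symm ((lemK T hF (Min3.sub T' hL hzX)).1 n)) x
    · intro z hz hzA hw x
      have hF := T.fnz L (pj z) hL.fc
      have hzX : pj z ∉ Xz ev L := fun h => hzA ⟨hz, h⟩
      exact van_snd (van_bot_eq (sec_SF hz).symm
        (lemK_zero T hF (Min3.sub T' hL hzX) ((rk_w T hL.fc hz).mp hw))) x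
    · intro z hz hzA hw
      have hF := T.fnz L (pj z) hL.fc
      have hzX : pj z ∉ Xz ev L := fun h => hzA ⟨hz, h⟩
      have hw' : res (SF_sub lam (L ∩ Nf ev (pj z))) 1 w ≠ 0 :=
        fun h => hw ((rk_w T hL.fc hz).mpr h)
      have h1 := lemK_ne T hF (Min3.sub T' hL hzX) hw'
      have hsub : sec (TS ev (SF ev lam L) Set.univ) z ⊆ SF ev lam L := fun g hg => hg.1
      refine bas2_snd (ff (tot_TSp T.sys hZ)).adE hsub _ ?_
      rw [res_res _ _ (hsub.trans (SF_sub lam L))]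
      exact bas2_sec_eq (sec_SF hz).symm _ _ w h1
  obtain ⟨r1, r2, r3⟩ := AS.lemL hd (pj_ok T') hLH hj2 x hx
  refine ⟨by omega, r2, ?_⟩
  intro z
  by_cases hz : z ∈ Xz ev L
  · intro h0
    apply r2
    have h1 : L ∩ Nf ev z = L := by
      ext g
      exact ⟨fun h => h.1, fun h => ⟨h, hL.fc.sub h, hz g h⟩⟩
    have h2 : res (SF_sub lam L) 1 w = 0 :=
      res_ne_eq (by rw [h1]) _ _ w h0
    rw [h2]
    exact pw_of_zero (k := 1) rfl
  · obtain ⟨x', hx', rfl⟩ := pj_surj z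
    intro h0
    exact r3 x' hx' (fun h => hz h.2) ((rk_w T hL.fc hx').mpr h0)

end T2h

end C3

end TightRP
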