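import Pool.Agent.Lib.MP_7cdc3e_gt.C.T2.Cvx
import Pool.Agent.Lib.MP_7cdc3e_gt.C.T2.Stm
import Pool.Agent.Lib.AS.LHq

/-!
# MP_7cdc3e_gt, C32, T2: Lemma K (helper76)
-/

set_option autoImplicit false

open Module AS

namespace TightRP

namespace C3

namespace T2k

open T2h

variable {F : Type} [Field F] {ev : W →ₗ[ℝ] (RP3 → ℝ)} {lam : W →ₗ[ℝ] ℝ}

/-! ### transport along equalities of sets -/

theorem bas2_ap {A B : Set E4} (h : A = B) (hA : (0 : E4) ∉ A) (hB : (0 : E4) ∉ B) :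
    Bas2 (Pm E4) A 1 (ap 1 A hA) → Bas2 (Pm E4) B 1 (ap 1 B hB) := by
  subst h
  exact id

theorem bas3_ap {A B : Set E4} (h : A = B) (hA : (0 : E4) ∉ A) (hB : (0 : E4) ∉ B) :
    Bas3 (Pm E4) A (ap 1 A hA) (ap 2 A hA) → Bas3 (Pm E4) B (ap 1 B hB) (ap 2 B hB) := by
  subst h
  exact id

/-! ### the class `a` -/

theorem res_ak' (k : ℕ) {E E' : Set (W × E4)} (hs : E' ⊆ E) (h : In2 E) (h' : In2 E') :
    res hs k (ak k h) = ak k h' := by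
  have h1 := res_pull (Γ := Pm2 W) (D := ∅) (Γ' := Pm E4) (D' := ∅)
    (adm_snd (∅ : Set E4) h.sub) (adm_snd (∅ : Set E4) h'.sub) hs (Set.Subset.refl Sp)
    (n := k) (ap k Sp zero_notMem_Sp)
  rw [res_self] at h1
  exact h1

/-- the situation of Lemma K -/
theorem mixK (T : TF F ev lam) {Ψ : Set W} (hΨ : IsFace ev Ψ) (hTy : ∀ g ∈ Ψ, Ty ev 1 g)
    (tE : Tot (TS ev (PF lam Ψ) Set.univ) (PF lam Ψ) Sp) :
    Mix (Pm2 W) (Prod.fst ⁻¹' SF ev lam Ψ) (TS ev (PF lam Ψ) Set.univ)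
      (TS ev (PF lam Ψ) Set.univ ∩ Prod.fst ⁻¹' SF ev lam Ψ) (SF ev lam Ψ) (PF lam Ψ)
      Prod.fst (ak 1 tE.in2) where
  fib := ffD tE (SF_cpt T hΨ).isClosed
  ZS := fun g hg => ⟨hg.1, hg.2.2⟩
  hF := rfl
  b2 := by
    intro g hg hgZ
    have hC : g ∈ Cn ev := hΨ.sub hg.1
    have h0 : g ≠ 0 := by
      rintro rfl
      have := hg.2
      rw [map_zero] at this
      exact zero_ne_one this
    have h2 : ¬ Ty ev 2 g := fun h2 => hgZ ⟨hg.1, (T.t2 g).2 ⟨hC, h0, h2⟩, hg.2⟩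
    have h3 := T.z2 g hC (hTy g hg.1) h2
    exact bas2_fst tE.in2 (adm_snd (∅ : Set E4) tE.in2.sub)
      (bas2_ap (fib_TS_univ hg).symm (zero_notMem_up _) (fib_zero tE.in2 g) h3)
  b3 := by
    intro g hg
    have hgS : g ∈ PF lam Ψ := ⟨hg.1, hg.2.2⟩
    have hC : g ∈ Cn ev := hΨ.sub hg.1
    have h2 := (T.t2 g).1 hg.2.1
    have h3 := T.z3 g hC h2.2.1 h2.2.2
    exact bas3_fst tE.in2 (adm_snd (∅ : Set E4) tE.in2.sub)
      (bas3_ap (fib_TS_univ hgS).symm (zero_notMem_up _) (fib_zero tE.in2 g) h3)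

/-- convex compact sets have no cohomology in positive degrees -/
theorem van_cvx {S : Set W} (hS : IsCompact S) (hc : Convex ℝ S) (n : ℕ)
    (x : H (⊥ : Subgroup (W ≃ᵢ W)) ∅ (n + 1) S) : x = 0 := by
  rcases S.eq_empty_or_nonempty with h | ⟨p, hp⟩
  · exact H_empty h x
  · exact (star_acy hS hp (hc.starConvex hp)).2.2 n x

/-- the second projection -/
theorem bij2 (T : TF F ev lam) {Ψ : Set W} (hΨ : IsFace ev Ψ) {C : Set E4}
    (tM : Tot (TS ev (PF lam Ψ) Set.univ) (PF lam Ψ) C)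
    (hC : ∀ x ∈ C, ∃ g ∈ PF lam Ψ, ev g (pj x) = 0) (n : ℕ) :
    Function.Bijective (pull (Prod.snd : W × E4 → E4) (fg tM).adE n) := by
  refine LHa' (fg tM) (qq tM) (fun x hx _ => ?_) n
  apply acy_snd
  have h1 : sec (TS ev (PF lam Ψ) Set.univ) x = PF lam (Ψ ∩ Nf ev (pj x)) := by
    rw [sec_TS (A := Set.univ) (x := x) ⟨tM.sC hx, trivial⟩, Zz_PF hΨ]
  rw [h1]
  obtain ⟨g, hg, hgx⟩ := hC x hx
  have h2 : g ∈ PF lam (Ψ ∩ Nf ev (pj x)) := ⟨⟨hg.1, hΨ.sub hg.1, hgx⟩, hg.2⟩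
  exact star_acy (PF_cpt T (T.fnz Ψ _ hΨ)) h2 ((PF_convex (T.fnz Ψ _ hΨ)).starConvex h2)

/-- **Lemma K** -/
theorem okLemK : LemKStmt := by
  intro F _ ev lam w hW Ψ hΨ _ hTy
  have T := hW.toTF
  have hSc : IsCompact (PF lam Ψ) := PF_cpt T hΨ
  have tE : Tot (TS ev (PF lam Ψ) Set.univ) (PF lam Ψ) Sp := tot_TSp T.sys hSc
  have hM := mixK T hΨ hTy tE
  have hvS := van_cvx hSc (PF_convex hΨ)
  have hMcl : IsClosed (MB ev (PF lam Ψ)) := MB_closed T.sys hSc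
  have tM := tot_TS' T.sys hSc hMcl (Set.Subset.refl _)
  have hb := bij2 T hΨ tM (fun x hx => hx.2)
  have hE4 : ∀ (n : ℕ) (Y : H (Pm2 W) ∅ (n + 4) (TS ev (PF lam Ψ) Set.univ)), Y = 0 := by
    intro n Y
    obtain ⟨y, rfl⟩ := (hb (n + 4)).2 Y
    rw [T.top _ (n + 4) hMcl (Or.inl (by omega)) y, map_zero]
  have h1 : ∀ (n : ℕ) (x : H (⊥ : Subgroup (W ≃ᵢ W)) ∅ (n + 2) (SF ev lam Ψ)), x = 0 :=
    fun n x => hM.vanish hvS (hE4 n) x
  by_cases hu : MB ev (PF lam Ψ) = Set.univ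
  · -- all points are zeros
    have hb' := bij2 T hΨ tE (fun x hx => by
      have h2 : pj x ∈ MB ev (PF lam Ψ) := by
        rw [hu]
        trivial
      exact h2)
    have hak : ∀ k, pull (Prod.snd : W × E4 → E4) (fg tE).adE k (ap k Sp zero_notMem_Sp) =
        pw (ak 1 tE.in2) k := fun k => by
      rw [← ak_eq_pw]
      rfl
    obtain ⟨-, -, -, -, r2, -, r3, r3', -⟩ := T.rp
    have hE2 : ∀ Y : H (Pm2 W) ∅ 2 (TS ev (PF lam Ψ) Set.univ), Y = 0 ∨ Y = pw (ak 1 tE.in2) 2 := by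
      intro Y
      obtain ⟨y, rfl⟩ := (hb' 2).2 Y
      rcases r2 y with rfl | rfl
      · exact Or.inl (map_zero _)
      · exact Or.inr (hak 2)
    have hE3 : ∀ Y : H (Pm2 W) ∅ 3 (TS ev (PF lam Ψ) Set.univ), Y = 0 ∨ Y = pw (ak 1 tE.in2) 3 := by
      intro Y
      obtain ⟨y, rfl⟩ := (hb' 3).2 Y
      rcases r3 y with rfl | rfl
      · exact Or.inl (map_zero _)
      · exact Or.inr (hak 3)
    have ha : pw (ak 1 tE.in2) 3 ≠ 0 := by
      rw [← hak 3]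
      intro h0
      apply r3'
      apply (hb' 3).1
      rw [h0, map_zero]
    -- the relation
    have tU : Tot (TS ev (E2 ev lam) Set.univ) (E2 ev lam) Sp := tot_TSp T.sys (E2_cpt T)
    have hrel := (hW.wr tU).a3
    have hFU : TS ev (PF lam Ψ) Set.univ ∩ Prod.fst ⁻¹' SF ev lam Ψ ⊆
        TS ev (E2 ev lam) Set.univ := fun p hp => ⟨hp.2.2, hp.1.2⟩
    have hin : In2 (TS ev (PF lam Ψ) Set.univ ∩ Prod.fst ⁻¹' SF ev lam Ψ) :=
      ⟨fun p hp => tE.in2.sub p hp.1, fun p hp => ⟨tE.in2.neg p hp.1, hp.2⟩⟩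
    have hw : res hM.FE 3 (pw (ak 1 tE.in2) 3) =
        pull Prod.fst hM.fibZ.adE 3 (pw (res (SF_sub lam Ψ) 1 w) 3) +
        cupH ∅ 3 (pull Prod.fst hM.fibZ.adE 2 (pw (res (SF_sub lam Ψ) 1 w) 2))
          (res hM.FE 1 (ak 1 tE.in2)) +
        cupH ∅ 3 (pull Prod.fst hM.fibZ.adE 1 (res (SF_sub lam Ψ) 1 w))
          (res hM.FE 2 (pw (ak 1 tE.in2) 2)) := by
      have h2 := congrArg (res hFU 3) hrel
      unfold Tot.c3 at h2
      rw [map_add, map_add, res_cup (p := 2) (q := 1) (n := 3) hFU rfl,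
        res_cup (p := 1) (q := 2) (n := 3) hFU rfl, res_ak' 3 hFU tU.in2 hin,
        res_ak' 1 hFU tU.in2 hin, res_ak' 2 hFU tU.in2 hin] at h2
      rw [← ak_eq_pw, ← ak_eq_pw, res_ak' 3 hM.FE tE.in2 hin, res_ak' 1 hM.FE tE.in2 hin,
        res_ak' 2 hM.FE tE.in2 hin, h2, ← res_pw, ← res_pw]
      congr 1
      · congr 1
        · exact res_pull (Γ := Pm2 W) (D := ∅) (D' := ∅) _ _ hFU (SF_sub lam Ψ) _
        · congr 1
          exact res_pull (Γ := Pm2 W) (D := ∅) (D' := ∅) _ _ hFU (SF_sub lam Ψ) _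
      · congr 1
        exact res_pull (Γ := Pm2 W) (D := ∅) (D' := ∅) _ _ hFU (SF_sub lam Ψ) _
    have hB := hM.basis hvS (res (SF_sub lam Ψ) 1 w) hw hE2 hE3 hE4 ha
    exact ⟨h1, fun h0 => (hB.2.2.2.1 h0).elim, fun _ => hB⟩
  · -- no cohomology in degree one
    have h2 : ∀ x : H (⊥ : Subgroup (W ≃ᵢ W)) ∅ 1 (SF ev lam Ψ), x = 0 := by
      intro x
      refine hM.vanish hvS (j := 1) (fun Y => ?_) x
      obtain ⟨y, rfl⟩ := (hb 3).2 Y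
      rw [T.top _ 3 hMcl (Or.inr ⟨le_rfl, hu⟩) y, map_zero]
    exact ⟨h1, fun _ => h2, fun h0 => (h0 (h2 _)).elim⟩

end T2k

end C3

end TightRP
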