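import Pool.Agent.Lib.MP_7cdc3e_gt.C.T2.Cvx

/-!
# MP_7cdc3e_gt, C32, T2: projective space; star-shaped closed sets
-/

set_option autoImplicit false

open Module AS

namespace TightRP

namespace C3

namespace T2h

variable {F : Type} [Field F] {ev : W →ₗ[ℝ] (RP3 → ℝ)} {lam : W →ₗ[ℝ] ℝ}

/-- the class `a` on the sphere -/
noncomputable abbrev a₁ : H (Pm E4) ∅ 1 Sp := ap 1 Sp zero_notMem_Sp

/-- closed symmetric subsets of the sphere come from the projective space -/
theorem up_image {A : Set E4} (h : Ad (Pm E4) Sp A) : up (pj '' A) = A := by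
  ext x
  constructor
  · rintro ⟨hx, y, hy, hxy⟩
    rcases (pj_eq_iff (h.sub hy) hx).mp hxy with h1 | h1
    · rwa [← h1]
    · have h2 := ivS_Pm.mp h.inv y hy
      rw [h1, neg_neg] at h2
      exact h2
  · intro hx
    exact ⟨h.sub hx, x, hx, rfl⟩

theorem closed_image {A : Set E4} (h : Ad (Pm E4) Sp A) : IsClosed (pj '' A) := by
  have := rTop.1
  exact (h.cpt.image_of_continuousOn (pj_cont.mono h.sub)).isClosed

theorem ad_up {A : Set RP3} (hA : IsClosed A) : Ad (Pm E4) Sp (up A) :=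
  ⟨up_compact hA, up_iv A, up_sub A⟩

theorem top_of (T : TF F ev lam) {A : Set E4} (h : Ad (Pm E4) Sp A) {k : ℕ}
    (hk : 4 ≤ k ∨ (3 ≤ k ∧ A ≠ Sp)) (x : H (Pm E4) ∅ k A) : x = 0 := by
  have key : ∀ A' : Set E4, A' = A → (∀ x : H (Pm E4) ∅ k A', x = 0) →
      ∀ x : H (Pm E4) ∅ k A, x = 0 := by
    rintro _ rfl h1
    exact h1
  refine key _ (up_image h) (T.top (pj '' A) k (closed_image h) ?_) x
  rcases hk with hk | ⟨hk, hne⟩
  · exact Or.inl hk
  · refine Or.inr ⟨hk, fun h1 => hne ?_⟩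
    rw [← up_image h, h1, up_univ]

/-- the projective space -/
theorem pj_ok (T : TF F ev lam) : Pj (Pm E4) Sp a₁ where
  gen := by
    intro n y
    obtain ⟨r0, _, r1, _, r2, _, r3, _, r4⟩ := T.rp
    rcases n with _ | _ | _ | _ | n
    · exact r0 y
    · rcases r1 y with h | h
      · exact Or.inl h
      · exact Or.inr (h.trans (pw_one _).symm)
    · rw [← ap_eq_pw]
      exact r2 y
    · rw [← ap_eq_pw]
      exact r3 y
    · exact Or.inl (r4 n y)
  a3 := by
    rw [← ap_eq_pw]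
    exact T.rp.2.2.2.2.2.2.2.1
  dim := by
    refine okL8 E4 (Pm E4) 3 Sp ?_ ?_ ?_
    · rw [finrank_euclideanSpace_fin]
    · intro g
      rw [mem_Pm]
      constructor
      · rintro (rfl | rfl)
        · exact Or.inl fun _ => rfl
        · exact Or.inr fun _ => rfl
      · rintro (h | h)
        · left
          ext x
          rw [h]
          rfl
        · right
          ext x
          rw [h]
          rfl
    · intro x hx
      exact mem_sphere_zero_iff_norm.mp hx
  top4 := fun A hA n y => top_of T hA (Or.inl (by omega)) y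
  top3 := fun A hA hne y => top_of T hA (Or.inr ⟨le_rfl, hne⟩) y

/-- `a` vanishes on even sets -/
theorem res_even (T : TF F ev lam) {A : Set RP3} (hA : IsClosed A) (he : Even A) :
    res (up_sub A) 1 a₁ = 0 := by
  have h1 := (T.evn A hA).mpr he
  unfold apu at h1
  rw [← h1]
  exact res_ap 1 zero_notMem_Sp (up_sub A) (zero_notMem_up A)

/-! ### a fibre of the double covering -/

theorem acy_pair_pt {x : E4} (hx : x ∈ Sp) : Acy (Pm E4) ({x, -x} : Set E4) := by
  have hne : x ≠ -x := fun h => neg_ne (ne_zero_of_mem_Sp hx) h.symm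
  have hsub : ({x} : Set E4) ⊆ {x, -x} := Set.singleton_subset_iff.mpr (Set.mem_insert x {-x})
  have hb : ∀ n, Function.Bijective (rk (D := ∅) (bot_le : ⊥ ≤ Pm E4) hsub n) := by
    intro n
    refine okN3 E4 (Pm E4) ⊥ ∅ _ {x} n bot_le hsub fin_Pm (IvS.empty _) isCompact_singleton
      (IvS.bot _) ?_ ?_ ?_
    · rw [ivS_Pm]
      rintro y (rfl | hy)
      · exact Or.inr rfl
      · rw [Set.mem_singleton_iff.mp hy, neg_neg]
        exact Or.inl rfl
    · rintro y (rfl | hy)
      · exact ⟨1, Subgroup.one_mem _, y, rfl, rfl⟩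
      · exact ⟨ng E4, ng_mem, x, rfl, hy⟩
    · rintro g (rfl | rfl) hg y hy hgy
      · exact hg (Subgroup.one_mem _)
      · rw [Set.mem_singleton_iff.mp hy] at hgy
        exact hne (Set.mem_singleton_iff.mp hgy).symm
  have h0 : rk (D := ∅) (bot_le : ⊥ ≤ Pm E4) hsub 0 (one (Pm E4) {x, -x}) = one ⊥ {x} :=
    rk_one _ _
  refine ⟨fun y => ?_, fun h => ?_, fun n y => ?_⟩
  · rcases Fbr.pt_zero okN2 x (rk bot_le hsub 0 y) with h | h
    · left
      apply (hb 0).1
      rw [h, map_zero]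
    · right
      apply (hb 0).1
      rw [h, h0]
  · apply Fbr.pt_one okN2 x
    rw [← h0, h, map_zero]
  · apply (hb (n + 1)).1
    rw [map_zero]
    exact Fbr.pt_succ okN1 x n _

theorem pj_neg' (x : E4) : pj (-x) = pj x := by
  by_cases h : x ∈ Sp
  · exact pj_neg h
  · have h1 : -x ∉ Sp := fun h2 => h (by
      have h3 := neg_mem_Sp h2
      rwa [neg_neg] at h3)
    unfold pj
    rw [dif_neg h, dif_neg h1]

/-- closed sets which are mapped bijectively to a star-shaped set are acyclic -/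
theorem acy_star (hs : CSys F ev) {A : Set RP3} (hA : IsClosed A) {x₀ : RP3} (hx₀ : x₀ ∈ A)
    (hstar : ∀ z ∈ A, ∀ s t : ℝ, 0 ≤ s → 0 ≤ t → s + t = 1 →
      ∃ y ∈ A, ∀ g, ev g y = s * ev g z + t * ev g x₀)
    (hinj : ∀ y ∈ A, ∀ z ∈ A, (∀ g, ev g y = ev g z) → y = z) : Acy (Pm E4) (up A) := by
  have := cptRP3
  set φ : E4 → W := fun x => pt ev (pj x) with hφ
  have hφc : ContinuousOn φ Sp := (pt_cont hs).comp_continuousOn pj_cont
  have hQ : IsCompact (pt ev '' A) := (hA.isCompact).image (pt_cont hs)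
  have hfib : Fib (Pm E4) ∅ (up A) (⊥ : Subgroup (W ≃ᵢ W)) ∅ (pt ev '' A) φ := {
    fb := by
      refine ⟨up_ok hA, OkD.empty _, hφc.mono (up_sub A), ?_⟩
      rintro g (rfl | rfl)
      · exact ⟨1, Subgroup.one_mem _, fun _ => rfl⟩
      · refine ⟨1, Subgroup.one_mem _, fun x => ?_⟩
        change pt ev (pj (-x)) = pt ev (pj x)
        rw [pj_neg']
    fin := fin_bot
    okS := ok_bot hQ
    okD' := OkD.empty _
    maps := fun x hx => ⟨pj x, hx.2, rfl⟩
    hD := fun _ _ => ⟨fun hx => hx.elim, fun hx => hx.elim⟩ }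
  have hb := LHa hfib (by
    rintro _ ⟨z, hz, rfl⟩ _
    obtain ⟨x, hx, rfl⟩ := pj_surj z
    have h1 : ov (up A) φ {pt ev (pj x)} = {x, -x} := by
      ext y
      constructor
      · rintro ⟨hy, h2⟩
        have h3 : pt ev (pj y) = pt ev (pj x) := h2
        rw [pt_eq_iff] at h3
        have h4 := hinj _ hy.2 _ hz h3
        rcases (pj_eq_iff hy.1 hx).mp h4 with h5 | h5
        · exact Or.inl h5
        · exact Or.inr h5
      · rintro (rfl | hy)
        · exact ⟨⟨hx, hz⟩, rfl⟩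
        · rw [Set.mem_singleton_iff.mp hy]
          refine ⟨⟨neg_mem_Sp hx, ?_⟩, ?_⟩
          · rw [pj_neg hx]
            exact hz
          · change pt ev (pj (-x)) = pt ev (pj x)
            rw [pj_neg hx]
    rw [h1]
    exact acy_pair_pt hx)
  have hst : Acy (⊥ : Subgroup (W ≃ᵢ W)) (pt ev '' A) := by
    refine star_acy hQ (p := pt ev x₀) ⟨x₀, hx₀, rfl⟩ ?_
    rintro _ ⟨z, hz, rfl⟩ a b ha hb hab
    obtain ⟨y, hy, h1⟩ := hstar z hz b a hb ha (by rw [add_comm]; exact hab)
    refine ⟨y, hy, ?_⟩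
    apply ext_inner_right ℝ
    intro g
    rw [inner_add_left, real_inner_smul_left, real_inner_smul_left, ← ev_pt, ← ev_pt, ← ev_pt, h1]
    ring
  exact P33.Acy.of_pull _ hb hst

end T2h

end C3

end TightRP
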