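import Pool.Agent.Lib.MP_7cdc3e_gt.C.T2.Dbl

/-!
# MP_7cdc3e_gt, C32, T2: Theorem S0 from Lemma K and Proposition P
-/

set_option autoImplicit false

open Module AS

namespace TightRP

namespace C3

namespace T2h

variable {F : Type} [Field F] {ev : W →ₗ[ℝ] (RP3 → ℝ)} {lam : W →ₗ[ℝ] ℝ}
  {w : H (⊥ : Subgroup (W ≃ᵢ W)) ∅ 1 (E2 ev lam)}

theorem mem_Xz_Nf (z : RP3) : z ∈ Xz ev (Nf ev z) := fun _ hg => hg.2

/-- the fibre over a point of the sphere -/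
theorem sec_TSp {B : Set W} {x : E4} (hx : x ∈ Sp) :
    sec (TS ev B Set.univ) x = Zz ev B (pj x) := sec_TS ⟨hx, trivial⟩

theorem sec_E2 {x : E4} (hx : x ∈ Sp) :
    sec (TS ev (E2 ev lam) Set.univ) x = SF ev lam (Nf ev (pj x)) := by
  rw [sec_TSp hx, Zz_E2]

/-- vanishing of the square on a fibre -/
theorem rk_zero_iff_SF (h : WF F ev lam w) {x : E4} (hx : x ∈ Sp) (k : ℕ)
    (u : H (⊥ : Subgroup (W ≃ᵢ W)) ∅ k (E2 ev lam))
    (hf : Adm (Pm2 W) ∅ (TS ev (E2 ev lam) Set.univ) (⊥ : Subgroup (W ≃ᵢ W)) ∅ (E2 ev lam)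
      Prod.fst) :
    rk (bot_le : ⊥ ≤ Pm2 W) (ov_sub (TS ev (E2 ev lam) Set.univ) Prod.snd {x}) k
      (pull (Prod.fst : W × E4 → W) hf k u) = 0 ↔
      res (SF_sub lam (Nf ev (pj x))) k u = 0 := by
  have key : ∀ (A : Set W) (hA : A ⊆ E2 ev lam), A = SF ev lam (Nf ev (pj x)) →
      (res hA k u = 0 ↔ res (SF_sub lam (Nf ev (pj x))) k u = 0) := by
    rintro _ _ rfl
    exact Iff.rfl
  rw [rk_zero_iff_sec hf (B := E2 ev lam) (by
    rw [sec_E2 hx]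
    exact SF_sub lam _) k u]
  exact key _ _ (sec_E2 hx)

/-- every maximum point is a zero of a function of rank three -/
theorem exists_f3 (h : TF F ev lam) {g : W} (hg : g ∈ T2set ev) {z : RP3}
    (hz : ∀ y, ev g y ≤ ev g z) : F3 ev (Nf ev z) := by
  obtain ⟨k, hk, hk3, -⟩ := h.mx g hg z hz
  exact ⟨h.fnf z, ⟨z, mem_Xz_Nf z⟩, k, hk, hk3⟩

/-- a point at which `w² ≠ 0` is a zero of a function of rank three -/
theorem f3_of_ne (hK : LemKStmt) (h : WF F ev lam w) {z : RP3}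
    (hz : res (SF_sub lam (Nf ev z)) 2 (pw w 2) ≠ 0) : F3 ev (Nf ev z) := by
  refine ⟨h.fnf z, ⟨z, mem_Xz_Nf z⟩, ?_⟩
  by_contra hcon
  apply hz
  refine (hK F ev lam w h (Nf ev z) (h.fnf z) ⟨z, mem_Xz_Nf z⟩ ?_).1 0 _
  intro g hg
  by_contra h1
  exact hcon ⟨g, hg, (h.r3 g hg.1 ⟨z, hg.2⟩).mpr h1⟩

/-- `w ≠ 0` -/
theorem w_ne (hP : PropPStmt) (h : WF F ev lam w) : w ≠ 0 := by
  intro h0
  obtain ⟨g, hg⟩ := h.ex3
  obtain ⟨f1, f2, -⟩ := h.ffc g hg.1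
  have h3 : F3 ev (Fc ev g) := by
    refine ⟨f1, ?_, g, f2.1, hg⟩
    rw [h.fxz _ g f1 f2]
    exact hg.2.1
  have h4 := (hP F ev lam w h _ h3).1
  obtain ⟨-, -, -, h5, -⟩ := h4
  apply h5
  rw [h0, map_zero]

/-- the maxima -/
theorem acy_max (h : WF F ev lam w) {g : W} (hg : g ∈ E2 ev lam) :
    Acy (Pm2 W) (ov (XE ev (E2 ev lam)) Prod.fst {g}) := by
  have := cptRP3
  have hne : Nonempty RP3 := ⟨pj 0⟩
  have hT := tot_XE h.sys (E2_cpt h.toTF)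
  obtain ⟨e₀, he₀, h1, -⟩ := h.wv
  obtain ⟨z₀, -, hz₀⟩ := isCompact_univ.exists_isMaxOn Set.univ_nonempty
    ((h.sys.cont g).continuousOn (s := Set.univ))
  have hz : ∀ y, ev g y ≤ ev g z₀ := fun y => hz₀ (Set.mem_univ y)
  obtain ⟨x, hx⟩ := h1 g hg
  have hpos : 0 < ev g z₀ := lt_of_lt_of_le he₀ (hx.trans (hz x))
  refine acy_fst hT.in2 ?_
  have h2 : fib (XE ev (E2 ev lam)) g = up {x | ev g z₀ ≤ ev g x} := by
    ext y
    constructor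
    · rintro ⟨_, hy, h3⟩
      obtain ⟨y₀, hy₀, hy₁⟩ := pj_surj z₀
      refine ⟨hy, ?_⟩
      have h4 := h3 y₀ hy₀
      rw [hy₁] at h4
      exact h4
    · rintro ⟨hy, h3⟩
      exact ⟨hg, hy, fun y' _ => (hz _).trans h3⟩
  rw [h2]
  exact h.ve g hg.1 _ hpos ⟨z₀, le_rfl⟩

/-- `a = w` on the maxima -/
theorem max_w (h : WF F ev lam w) (hT : Tot (XE ev (E2 ev lam)) (E2 ev lam) Sp) :
    ak 1 hT.in2 = hT.p 1 w := by
  obtain ⟨e₀, he₀, h1, h2⟩ := h.wv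
  have hV := tot_VE h.sys (E2_cpt h.toTF) e₀
  have h3 := h2 e₀ he₀ le_rfl hV
  have hi : XE ev (E2 ev lam) ⊆ VE ev (E2 ev lam) e₀ := by
    rintro ⟨g, y⟩ ⟨hg, hy, h4⟩
    obtain ⟨x, hx⟩ := h1 g hg
    obtain ⟨x', hx', rfl⟩ := pj_surj x
    exact ⟨hg, hy, hx.trans (h4 x' hx')⟩
  have h4 := congrArg (res hi 1) h3
  have e1 : res hi 1 (hV.p 1 w) = hT.p 1 w := by
    have h5 := res_pull (adm_fst (∅ : Set W) hV.m1) (adm_fst (∅ : Set W) hT.m1) hi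
      (Set.Subset.refl _) w
    rw [res_self] at h5
    exact h5
  have e2 : res hi 1 (ak 1 hV.in2) = ak 1 hT.in2 := by
    unfold ak
    rw [res_pull (hf' := adm_snd (∅ : Set E4) hT.in2.sub) (h' := Set.Subset.refl Sp), res_self]
  rw [e1, e2] at h4
  exact h4.symm

/-- **Theorem S0** from Lemma K and Proposition P -/
theorem s0w (hK : LemKStmt) (hP : PropPStmt) : S0wStmt := by
  intro F _ ev lam w h
  have hE := E2_cpt h.toTF
  have hT := tot_TSp h.sys hE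
  have hX := tot_XE h.sys hE
  have d0 := dbl h hE (Set.Subset.refl _)
  rw [res_self] at d0
  -- the set of the points with `w² ≠ 0`
  have hmem : ∀ x ∈ Sp, (x ∈ nzs d0.q Sp (pw (pull Prod.fst d0.ff.adE 1 w) 2) ↔
      res (SF_sub lam (Nf ev (pj x))) 2 (pw w 2) ≠ 0) := by
    intro x hx
    constructor
    · rintro ⟨_, h1⟩ h2
      apply h1
      rw [← pull_pw]
      exact (rk_zero_iff_SF h hx 2 (pw w 2) _).mpr h2
    · intro h1
      refine ⟨hx, fun h2 => h1 ?_⟩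
      rw [← pull_pw] at h2
      exact (rk_zero_iff_SF h hx 2 (pw w 2) _).mp h2
  have h3 := nzs_ad d0.fg d0.q (pw (pull Prod.fst d0.ff.adE 1 w) 2)
  have hne : ∀ z, F3 ev (Nf ev z) → res (SF_sub lam (Nf ev z)) 2 (pw w 2) ≠ 0 :=
    fun z hz => (hP F ev lam w h _ hz).1.2.2.2.2.2.1
  have hw4 : pw w 4 = 0 := (h.wr hT).w4
  have hmap : ∀ p ∈ XE ev (E2 ev lam), p.2 ∈ nzs d0.q Sp (pw (pull Prod.fst d0.ff.adE 1 w) 2) := by
    rintro ⟨g, y⟩ ⟨hg, hy, h4⟩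
    refine (hmem y hy).mpr (hne _ (exists_f3 h.toTF hg.1 ?_))
    intro z
    obtain ⟨y', hy', rfl⟩ := pj_surj z
    exact h4 y' hy'
  have hS := lemS d0 (pj_ok h.toTF) hw4 (w_ne hP h) h3 (ff hX) (fun g hg => acy_max h hg)
    (adm_snd (∅ : Set E4) hmap) (adm_snd (∅ : Set E4) hX.m2) (max_w h hX) (by
      intro x hx
      have hxS : x ∈ Sp := hx.1
      have h5 := f3_of_ne hK h ((hmem x hxS).mp hx)
      have h6 := (hP F ev lam w h _ h5).1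
      have key : ∀ (A : Set W) (hA : A ⊆ E2 ev lam), A = SF ev lam (Nf ev (pj x)) →
          Bas3 (⊥ : Subgroup (W ≃ᵢ W)) A (res hA 1 w) (res hA 2 (pw w 2)) := by
        rintro _ _ rfl
        exact h6
      exact bas3_snd d0.ff.adE (by
        rw [sec_E2 hxS]
        exact SF_sub lam _) w (key _ _ (sec_E2 hxS)))
  intro z
  obtain ⟨x, hx, rfl⟩ := pj_surj z
  exact (hmem x hx).mp ⟨hx, hS x hx⟩

end T2h

end C3

end TightRP
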