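import Pool.Agent.Lib.MP_7cdc3e_gt.C.T12.Defs
import Pool.Agent.Lib.AS.ChS
import Pool.Agent.Lib.AS.Hom

/-!
# MP_7cdc3e_gt, C32, T2: total spaces, slices
-/

set_option autoImplicit false

open Module AS

namespace TightRP

namespace C3

namespace T2h

section transport

variable {X Y : Type} [MetricSpace X] [MetricSpace Y] {Γ : Subgroup (X ≃ᵢ X)}
  {Γ' : Subgroup (Y ≃ᵢ Y)} {C : Set X} {C' : Set Y}

theorem bas3_of_pull {f : X → Y} (hf : Adm Γ ∅ C Γ' ∅ C' f) {b : H Γ' ∅ 1 C'} {c : H Γ' ∅ 2 C'}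
    (hb : ∀ n, Function.Bijective (pull f hf n)) (h : Bas3 Γ' C' b c) :
    Bas3 Γ C (pull f hf 1 b) (pull f hf 2 c) := by
  obtain ⟨h1, h2, h3, h4, h5, h6, h7⟩ := h
  refine ⟨fun x => ?_, fun h0 => ?_, fun x => ?_, fun h0 => ?_, fun x => ?_, fun h0 => ?_,
    fun n x => ?_⟩
  · obtain ⟨y, rfl⟩ := (hb 0).2 x
    rcases h1 y with rfl | rfl
    · exact Or.inl (map_zero _)
    · exact Or.inr (P33.pull_one hf)
  · rw [← P33.pull_one hf, ← map_zero (pull f hf 0)] at h0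
    exact h2 ((hb 0).1 h0)
  · obtain ⟨y, rfl⟩ := (hb 1).2 x
    rcases h3 y with rfl | rfl
    · exact Or.inl (map_zero _)
    · exact Or.inr rfl
  · rw [← map_zero (pull f hf 1)] at h0
    exact h4 ((hb 1).1 h0)
  · obtain ⟨y, rfl⟩ := (hb 2).2 x
    rcases h5 y with rfl | rfl
    · exact Or.inl (map_zero _)
    · exact Or.inr rfl
  · rw [← map_zero (pull f hf 2)] at h0
    exact h6 ((hb 2).1 h0)
  · obtain ⟨y, rfl⟩ := (hb (n + 3)).2 x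
    rw [h7 n y, map_zero]

theorem bas4_of_pull {f : X → Y} (hf : Adm Γ ∅ C Γ' ∅ C' f) {b : H Γ' ∅ 1 C'} {c : H Γ' ∅ 2 C'}
    {e : H Γ' ∅ 3 C'} (hb : ∀ n, Function.Bijective (pull f hf n)) (h : Bas4 Γ' C' b c e) :
    Bas4 Γ C (pull f hf 1 b) (pull f hf 2 c) (pull f hf 3 e) := by
  obtain ⟨h1, h2, h3, h4, h5, h6, h7, h8, h9⟩ := h
  refine ⟨fun x => ?_, fun h0 => ?_, fun x => ?_, fun h0 => ?_, fun x => ?_, fun h0 => ?_,
    fun x => ?_, fun h0 => ?_, fun n x => ?_⟩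
  · obtain ⟨y, rfl⟩ := (hb 0).2 x
    rcases h1 y with rfl | rfl
    · exact Or.inl (map_zero _)
    · exact Or.inr (P33.pull_one hf)
  · rw [← P33.pull_one hf, ← map_zero (pull f hf 0)] at h0
    exact h2 ((hb 0).1 h0)
  · obtain ⟨y, rfl⟩ := (hb 1).2 x
    rcases h3 y with rfl | rfl
    · exact Or.inl (map_zero _)
    · exact Or.inr rfl
  · rw [← map_zero (pull f hf 1)] at h0
    exact h4 ((hb 1).1 h0)
  · obtain ⟨y, rfl⟩ := (hb 2).2 x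
    rcases h5 y with rfl | rfl
    · exact Or.inl (map_zero _)
    · exact Or.inr rfl
  · rw [← map_zero (pull f hf 2)] at h0
    exact h6 ((hb 2).1 h0)
  · obtain ⟨y, rfl⟩ := (hb 3).2 x
    rcases h7 y with rfl | rfl
    · exact Or.inl (map_zero _)
    · exact Or.inr rfl
  · rw [← map_zero (pull f hf 3)] at h0
    exact h8 ((hb 3).1 h0)
  · obtain ⟨y, rfl⟩ := (hb (n + 4)).2 x
    rw [h9 n y, map_zero]

end transport

/-! ## slices of the first projection -/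

section first

variable {E : Set (W × E4)}

theorem fib_zero (h : In2 E) (g : W) : (0 : E4) ∉ fib E g := by
  intro h0
  have h1 : (g, (0 : E4)) ∈ E := h0
  exact zero_notMem_Sp (h.sub (g, (0 : E4)) h1)

theorem adm_sl (h : In2 E) (g : W) :
    Adm (Pm2 W) ∅ (ov E Prod.fst {g}) (Pm E4) ∅ (fib E g) (Prod.snd : W × E4 → E4) := by
  have h1 := adm_snd (B := W) (E := ov E Prod.fst {g}) (C := fib E g) (∅ : Set E4) (by
    rintro ⟨g', x⟩ ⟨hx, hg⟩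
    have hg' : g' = g := hg
    rw [← hg']
    exact hx)
  exact h1

theorem adm_sl' (h : In2 E) (g : W) :
    Adm (Pm E4) ∅ (fib E g) (Pm2 W) ∅ (ov E Prod.fst {g}) (fun x => (g, x)) := by
  refine ⟨fun x hx => ⟨hx, rfl⟩, fun _ _ hx => hx.elim, fun ε hε => ⟨ε, hε, ?_⟩, ?_⟩
  · intro x _ y _ h
    rw [Prod.dist_eq]
    exact max_lt (by rw [dist_self]; exact hε) h
  · rintro _ (rfl | rfl)
    · exact ⟨1, Subgroup.one_mem _, fun _ => rfl⟩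
    · exact ⟨ng2 W, ng2_mem, fun _ => rfl⟩

theorem bij_sl (h : In2 E) (g : W) (n : ℕ) :
    Function.Bijective (pull (Prod.snd : W × E4 → E4) (adm_sl h g) n) := by
  refine P33.pull_bij _ (adm_sl' h g) ?_ (fun _ _ => rfl) n
  rintro ⟨g', x⟩ ⟨_, hg⟩
  have hg' : g' = g := hg
  rw [hg']

theorem acy_fst (h : In2 E) {g : W} (hA : Acy (Pm E4) (fib E g)) :
    Acy (Pm2 W) (ov E Prod.fst {g}) := P33.Acy.of_pull _ (bij_sl h g) hA

/-- the class `a ^ k` on a slice -/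
theorem res_pull_ap (h : In2 E) (g : W) (k : ℕ) (hs : Adm (Pm2 W) ∅ E (Pm E4) ∅ Sp Prod.snd) :
    res (ov_sub E Prod.fst {g}) k (pull (Prod.snd : W × E4 → E4) hs k (ap k Sp zero_notMem_Sp)) =
      pull (Prod.snd : W × E4 → E4) (adm_sl h g) k (ap k (fib E g) (fib_zero h g)) := by
  unfold ap
  rw [pull_cl, res_cl, pull_cl]

theorem bas2_fst (h : In2 E) {g : W} (hs : Adm (Pm2 W) ∅ E (Pm E4) ∅ Sp Prod.snd)
    (hA : Bas2 (Pm E4) (fib E g) 1 (ap 1 (fib E g) (fib_zero h g))) :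
    Bas2 (Pm2 W) (ov E Prod.fst {g}) 1 (res (ov_sub E Prod.fst {g}) 1
      (pull (Prod.snd : W × E4 → E4) hs 1 (ap 1 Sp zero_notMem_Sp))) := by
  rw [res_pull_ap h g 1 hs]
  exact P33.Bas2.of_pull _ (bij_sl h g) hA

theorem bas3_fst (h : In2 E) {g : W} (hs : Adm (Pm2 W) ∅ E (Pm E4) ∅ Sp Prod.snd)
    (hA : Bas3 (Pm E4) (fib E g) (ap 1 (fib E g) (fib_zero h g))
      (ap 2 (fib E g) (fib_zero h g))) :
    Bas3 (Pm2 W) (ov E Prod.fst {g}) (res (ov_sub E Prod.fst {g}) 1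
      (pull (Prod.snd : W × E4 → E4) hs 1 (ap 1 Sp zero_notMem_Sp)))
      (res (ov_sub E Prod.fst {g}) 2
      (pw (pull (Prod.snd : W × E4 → E4) hs 1 (ap 1 Sp zero_notMem_Sp)) 2)) := by
  rw [← pull_pw, ← ap_eq_pw, res_pull_ap h g 1 hs, res_pull_ap h g 2 hs]
  exact bas3_of_pull _ (bij_sl h g) hA

theorem bas4_fst (h : In2 E) {g : W} (hs : Adm (Pm2 W) ∅ E (Pm E4) ∅ Sp Prod.snd)
    (hA : Bas4 (Pm E4) (fib E g) (ap 1 (fib E g) (fib_zero h g))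
      (ap 2 (fib E g) (fib_zero h g)) (ap 3 (fib E g) (fib_zero h g))) :
    Bas4 (Pm2 W) (ov E Prod.fst {g}) (res (ov_sub E Prod.fst {g}) 1
      (pull (Prod.snd : W × E4 → E4) hs 1 (ap 1 Sp zero_notMem_Sp)))
      (res (ov_sub E Prod.fst {g}) 2
      (pw (pull (Prod.snd : W × E4 → E4) hs 1 (ap 1 Sp zero_notMem_Sp)) 2))
      (res (ov_sub E Prod.fst {g}) 3
      (pw (pull (Prod.snd : W × E4 → E4) hs 1 (ap 1 Sp zero_notMem_Sp)) 3)) := by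
  rw [← pull_pw, ← pull_pw, ← ap_eq_pw, ← ap_eq_pw, res_pull_ap h g 1 hs, res_pull_ap h g 2 hs,
    res_pull_ap h g 3 hs]
  exact bas4_of_pull _ (bij_sl h g) hA

end first

/-! ## slices of the second projection -/

section second

variable {E : Set (W × E4)}

theorem adm_sec (E : Set (W × E4)) (x : E4) :
    Adm (⊥ : Subgroup ((W × E4) ≃ᵢ (W × E4))) ∅ (ov E Prod.snd {x}) (⊥ : Subgroup (W ≃ᵢ W)) ∅
      (sec E x) (Prod.fst : W × E4 → W) := by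
  refine ⟨?_, fun _ _ hx => hx.elim, fun ε hε => ⟨ε, hε, fun p _ q _ hd =>
    (le_max_left _ _).trans_lt hd⟩, ?_⟩
  · rintro ⟨g, x'⟩ ⟨hx, hg⟩
    have hg' : x' = x := hg
    rw [← hg']
    exact hx
  · intro g hg
    rw [Subgroup.mem_bot] at hg
    subst hg
    exact ⟨1, Subgroup.one_mem _, fun _ => rfl⟩

theorem adm_sec' (E : Set (W × E4)) (x : E4) :
    Adm (⊥ : Subgroup (W ≃ᵢ W)) ∅ (sec E x) (⊥ : Subgroup ((W × E4) ≃ᵢ (W × E4))) ∅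
      (ov E Prod.snd {x}) (fun g => (g, x)) := by
  refine ⟨fun g hg => ⟨hg, rfl⟩, fun _ _ hx => hx.elim, fun ε hε => ⟨ε, hε, ?_⟩, ?_⟩
  · intro g _ g' _ h
    rw [Prod.dist_eq]
    exact max_lt h (by rw [dist_self]; exact hε)
  · intro g hg
    rw [Subgroup.mem_bot] at hg
    subst hg
    exact ⟨1, Subgroup.one_mem _, fun _ => rfl⟩

theorem bij_sec (E : Set (W × E4)) (x : E4) (n : ℕ) :
    Function.Bijective (pull (Prod.fst : W × E4 → W) (adm_sec E x) n) := by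
  refine P33.pull_bij _ (adm_sec' E x) ?_ (fun _ _ => rfl) n
  rintro ⟨g, x'⟩ ⟨_, hg⟩
  have hg' : x' = x := hg
  rw [hg']

theorem acy_snd {x : E4} (hA : Acy (⊥ : Subgroup (W ≃ᵢ W)) (sec E x)) :
    Acy (⊥ : Subgroup ((W × E4) ≃ᵢ (W × E4))) (ov E Prod.snd {x}) :=
  P33.Acy.of_pull _ (bij_sec E x) hA

/-- vanishing of the groups of a slice -/
theorem van_snd {x : E4} {n : ℕ} (hA : ∀ y : H (⊥ : Subgroup (W ≃ᵢ W)) ∅ n (sec E x), y = 0)
    (y : H (⊥ : Subgroup ((W × E4) ≃ᵢ (W × E4))) ∅ n (ov E Prod.snd {x})) : y = 0 := by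
  obtain ⟨y', rfl⟩ := (bij_sec E x n).2 y
  rw [hA y', map_zero]

/-- a class from the first factor on a slice -/
theorem rk_pull_fst {B : Set W} {x : E4} (hf : Adm (Pm2 W) ∅ E (⊥ : Subgroup (W ≃ᵢ W)) ∅ B Prod.fst)
    (hB : sec E x ⊆ B) (k : ℕ) (w : H (⊥ : Subgroup (W ≃ᵢ W)) ∅ k B) :
    rk (bot_le : ⊥ ≤ Pm2 W) (ov_sub E Prod.snd {x}) k (pull (Prod.fst : W × E4 → W) hf k w) =
      pull (Prod.fst : W × E4 → W) (adm_sec E x) k (res hB k w) := by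
  unfold rk res
  rw [pull_pull, pull_pull]

theorem rk_zero_iff_sec {B : Set W} {x : E4}
    (hf : Adm (Pm2 W) ∅ E (⊥ : Subgroup (W ≃ᵢ W)) ∅ B Prod.fst)
    (hB : sec E x ⊆ B) (k : ℕ) (w : H (⊥ : Subgroup (W ≃ᵢ W)) ∅ k B) :
    rk (bot_le : ⊥ ≤ Pm2 W) (ov_sub E Prod.snd {x}) k (pull (Prod.fst : W × E4 → W) hf k w) = 0 ↔
      res hB k w = 0 := by
  rw [rk_pull_fst hf hB]
  constructor
  · intro h
    apply (bij_sec E x k).1
    rw [h, map_zero]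
  · intro h
    rw [h, map_zero]

theorem bas2_snd {B : Set W} {x : E4} (hf : Adm (Pm2 W) ∅ E (⊥ : Subgroup (W ≃ᵢ W)) ∅ B Prod.fst)
    (hB : sec E x ⊆ B) (w : H (⊥ : Subgroup (W ≃ᵢ W)) ∅ 1 B)
    (hA : Bas2 (⊥ : Subgroup (W ≃ᵢ W)) (sec E x) 1 (res hB 1 w)) :
    Bas2 (⊥ : Subgroup ((W × E4) ≃ᵢ (W × E4))) (ov E Prod.snd {x}) 1
      (rk (bot_le : ⊥ ≤ Pm2 W) (ov_sub E Prod.snd {x}) 1
        (pull (Prod.fst : W × E4 → W) hf 1 w)) := by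
  rw [rk_pull_fst hf hB]
  exact P33.Bas2.of_pull _ (bij_sec E x) hA

theorem bas3_snd {B : Set W} {x : E4} (hf : Adm (Pm2 W) ∅ E (⊥ : Subgroup (W ≃ᵢ W)) ∅ B Prod.fst)
    (hB : sec E x ⊆ B) (w : H (⊥ : Subgroup (W ≃ᵢ W)) ∅ 1 B)
    (hA : Bas3 (⊥ : Subgroup (W ≃ᵢ W)) (sec E x) (res hB 1 w) (res hB 2 (pw w 2))) :
    Bas3 (⊥ : Subgroup ((W × E4) ≃ᵢ (W × E4))) (ov E Prod.snd {x})
      (rk (bot_le : ⊥ ≤ Pm2 W) (ov_sub E Prod.snd {x}) 1
        (pull (Prod.fst : W × E4 → W) hf 1 w))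
      (rk (bot_le : ⊥ ≤ Pm2 W) (ov_sub E Prod.snd {x}) 2
        (pw (pull (Prod.fst : W × E4 → W) hf 1 w) 2)) := by
  rw [← pull_pw, rk_pull_fst hf hB, rk_pull_fst hf hB]
  exact bas3_of_pull _ (bij_sec E x) hA

end second

/-! ## the two fibrations of a total space -/

section tot

variable {E : Set (W × E4)} {B : Set W} {C : Set E4}

theorem fin_Pm : ((Pm E4 : Subgroup (E4 ≃ᵢ E4)) : Set (E4 ≃ᵢ E4)).Finite := by
  have h : ((Pm E4 : Subgroup (E4 ≃ᵢ E4)) : Set (E4 ≃ᵢ E4)) = {1, ng E4} := by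
    ext g
    rfl
  rw [h]
  exact Set.toFinite _

theorem fin_Pm2 : ((Pm2 W : Subgroup ((W × E4) ≃ᵢ (W × E4))) : Set ((W × E4) ≃ᵢ (W × E4))).Finite := by
  have h : ((Pm2 W : Subgroup ((W × E4) ≃ᵢ (W × E4))) : Set ((W × E4) ≃ᵢ (W × E4))) =
      {1, ng2 W} := by
    ext g
    rfl
  rw [h]
  exact Set.toFinite _

theorem fin_bot : ((⊥ : Subgroup (W ≃ᵢ W)) : Set (W ≃ᵢ W)).Finite := by
  rw [Subgroup.coe_bot]
  exact Set.finite_singleton _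

theorem eqv_fst : ∀ g ∈ Pm2 W, ∃ g' ∈ (⊥ : Subgroup (W ≃ᵢ W)), ∀ q, (g q).1 = g' q.1 := by
  rintro g (rfl | rfl)
  · exact ⟨1, Subgroup.one_mem _, fun _ => rfl⟩
  · exact ⟨1, Subgroup.one_mem _, fun _ => rfl⟩

theorem eqv_snd : ∀ g ∈ Pm2 W, ∃ g' ∈ Pm E4, ∀ q, (g q).2 = g' q.2 := by
  rintro g (rfl | rfl)
  · exact ⟨1, Subgroup.one_mem _, fun _ => rfl⟩
  · exact ⟨ng E4, ng_mem, fun _ => rfl⟩

theorem ok_bot {B : Set W} (h : IsCompact B) : Ok (⊥ : Subgroup (W ≃ᵢ W)) B := by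
  refine ⟨h, IvS.bot B, ?_⟩
  intro g hg _ _ _
  exact Subgroup.mem_bot.mp hg

/-- the first projection -/
theorem ff (h : Tot E B C) : Fib (Pm2 W) ∅ E (⊥ : Subgroup (W ≃ᵢ W)) ∅ B Prod.fst where
  fb := ⟨h.in2.ok h.cE, OkD.empty _, continuous_fst.continuousOn, eqv_fst⟩
  fin := fin_bot
  okS := ok_bot h.cB
  okD' := OkD.empty _
  maps := h.m1
  hD := fun _ _ => ⟨fun hx => hx.elim, fun hx => hx.elim⟩

/-- the first projection, relative to a closed set -/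
theorem ffD (h : Tot E B C) {D : Set W} (hD : IsClosed D) :
    Fib (Pm2 W) (Prod.fst ⁻¹' D) E (⊥ : Subgroup (W ≃ᵢ W)) D B Prod.fst where
  fb := by
    refine ⟨h.in2.ok h.cE, ⟨hD.preimage continuous_fst, ?_⟩, continuous_fst.continuousOn, eqv_fst⟩
    rintro g (rfl | rfl) p hp
    · exact hp
    · exact hp
  fin := fin_bot
  okS := ok_bot h.cB
  okD' := ⟨hD, IvS.bot D⟩
  maps := h.m1
  hD := fun _ _ => Iff.rfl

/-- the second projection -/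
theorem fg (h : Tot E B C) : Fib (Pm2 W) ∅ E (Pm E4) ∅ C Prod.snd where
  fb := ⟨h.in2.ok h.cE, OkD.empty _, continuous_snd.continuousOn, eqv_snd⟩
  fin := fin_Pm
  okS := ⟨h.cC, ivS_Pm.mpr h.nC, C3.fr_Pm h.z⟩
  okD' := OkD.empty _
  maps := h.m2
  hD := fun _ _ => ⟨fun hx => hx.elim, fun hx => hx.elim⟩

theorem qq (h : Tot E B C) : Quo (Pm2 W) ⊥ E (Pm E4) Prod.snd where
  fin := fin_Pm2
  le := bot_le
  triv := by
    intro g hg x
    rw [Subgroup.mem_bot] at hg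
    rw [hg]
    rfl
  free := by
    rintro g (rfl | rfl) hg x hx
    · exact (hg (Subgroup.one_mem _)).elim
    · exact neg_ne (ne_zero_of_mem_Sp (h.in2.sub x hx))
  surj := by
    rintro g (rfl | rfl)
    · exact ⟨1, Subgroup.one_mem _, fun _ => rfl⟩
    · exact ⟨ng2 W, ng2_mem, fun _ => rfl⟩

end tot

end T2h

end C3

end TightRP
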