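import Pool.Agent.Lib.MP_7cdc3e_gt.C.T12.Defs
import Pool.Agent.Lib.AS.Bd
import Pool.Agent.Lib.AS.AllL

/-!
# MP_7cdc3e_gt, C32, T2, Proposition P: sets with star-shaped image are acyclic (helper15)
-/

set_option autoImplicit false

open Module AS

namespace TightRP

namespace C3

/-- a pair of antipodal points is acyclic modulo `±` -/
theorem acy_pair (x : E4) : Acy (Pm E4) {y | y = x ∨ y = -x} := by
  have hf : ({y | y = x ∨ y = -x} : Set E4).Finite := by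
    have h1 : ({y | y = x ∨ y = -x} : Set E4) = {x, -x} := rfl
    rw [h1]
    exact Set.toFinite _
  refine ⟨fun y => ?_, (okN2 E4 (Pm E4) _).2 ⟨x, Or.inl rfl⟩, fun n y => okN1 E4 (Pm E4) ∅ _ n hf y⟩
  obtain ⟨φ, hφ, rfl⟩ := cl_surj y
  have hneg : φ [-x] = φ [x] := hφ.1 (ng E4) ng_mem [x]
  have hone : (fun _ => 1 : List E4 → ZMod 2) ∈ Cyc (Pm E4) ∅ 0 {y | y = x ∨ y = -x} :=
    one_mem (Pm E4) _
  have h2 : φ [x] = 0 ∨ φ [x] = 1 := by
    generalize φ [x] = c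
    revert c
    decide
  rcases h2 with h2 | h2
  · left
    rw [cl_eq_zero]
    refine Bnd_of_Z0 hφ.1 ⟨1, one_pos, fun l hl hs => ?_⟩
    obtain ⟨y, rfl⟩ := List.length_eq_one_iff.mp hl
    rcases hs.1 y List.mem_cons_self with rfl | rfl
    · exact h2
    · rw [hneg, h2]
  · right
    show cl φ hφ = cl (fun _ => 1) _
    rw [cl_eq_cl]
    refine Bnd_of_Z0 (hφ.1.add hone.1) ⟨1, one_pos, fun l hl hs => ?_⟩
    obtain ⟨y, rfl⟩ := List.length_eq_one_iff.mp hl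
    rw [Pi.add_apply]
    rcases hs.1 y List.mem_cons_self with rfl | rfl
    · rw [h2]
      decide
    · rw [hneg, h2]
      decide

variable {F : Type} [Field F] {ev : W →ₗ[ℝ] (RP3 → ℝ)}

/-- the evaluation map on a closed set in `RP³` -/
theorem fib_pt (h : CSys F ev) {A : Set RP3} (hA : IsClosed A) :
    Fib (Pm E4) ∅ (up A) (⊥ : Subgroup (W ≃ᵢ W)) ∅ (pt ev '' A) (fun x => pt ev (pj x)) := by
  have := cptRP3
  have hcA : IsCompact A := isCompact_univ.of_isClosed_subset hA (Set.subset_univ _)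
  refine ⟨⟨up_ok hA, OkD.empty _, ?_, ?_⟩, ?_, ⟨hcA.image (pt_cont h), IvS.bot _, Fr.bot _⟩,
    OkD.empty _, fun x hx => ⟨pj x, hx.2, rfl⟩,
    fun x _ => iff_of_false (Set.notMem_empty _) (Set.notMem_empty _)⟩
  · exact ((pt_cont h).comp_continuousOn pj_cont).mono (up_sub A)
  · rintro g (rfl | rfl)
    · exact ⟨1, Subgroup.one_mem _, fun _ => rfl⟩
    · refine ⟨1, Subgroup.one_mem _, fun x => ?_⟩
      show pt ev (pj (-x)) = pt ev (pj x)
      congr 1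
      by_cases hx : x ∈ Sp
      · exact pj_neg hx
      · have hx' : -x ∉ Sp := fun h1 => hx (by
          have h2 := neg_mem_Sp h1
          rwa [neg_neg] at h2)
        unfold pj
        rw [dif_neg hx, dif_neg hx']
  · rw [Subgroup.coe_bot]
    exact Set.finite_singleton _

/-- if the functions separate the points of `A` the evaluation map is an isomorphism in cohomology -/
theorem pull_pt_bij (h : CSys F ev) {A : Set RP3} (hA : IsClosed A)
    (hinj : ∀ x ∈ A, ∀ y ∈ A, (∀ g, ev g x = ev g y) → x = y)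
    (hm : Adm (Pm E4) ∅ (up A) (⊥ : Subgroup (W ≃ᵢ W)) ∅ (pt ev '' A) (fun x => pt ev (pj x)))
    (n : ℕ) : Function.Bijective (pull (fun x => pt ev (pj x)) hm n) := by
  have hf := fib_pt h hA
  have := cptRP3
  have hcA : IsCompact A := isCompact_univ.of_isClosed_subset hA (Set.subset_univ _)
  have key : ∀ E, E = ov (up A) (fun x => pt ev (pj x)) (pt ev '' A) →
      ∀ hE : Adm (Pm E4) ∅ E (⊥ : Subgroup (W ≃ᵢ W)) ∅ (pt ev '' A) (fun x => pt ev (pj x)),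
      Function.Bijective (pull (fun x => pt ev (pj x)) hE n) := by
    rintro _ rfl hE
    refine okW1a E4 W (Pm E4) ∅ (up A) ∅ (pt ev '' A) _ hf (fun p hp _ => ?_) (pt ev '' A)
      (hcA.image (pt_cont h)) (Set.Subset.refl _) n
    obtain ⟨z, hz, rfl⟩ := hp
    obtain ⟨x, hx, rfl⟩ := pj_surj z
    have h1 : ov (up A) (fun x => pt ev (pj x)) {pt ev (pj x)} = {y | y = x ∨ y = -x} := by
      ext y
      constructor
      · rintro ⟨hy, hyx⟩
        have h2 : pt ev (pj y) = pt ev (pj x) := hyx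
        have h3 := hinj _ hy.2 _ hz ((pt_eq_iff ev _ _).1 h2)
        exact (pj_eq_iff hy.1 hx).1 h3
      · rintro (rfl | rfl)
        · exact ⟨⟨hx, hz⟩, rfl⟩
        · refine ⟨neg_mem_up ⟨hx, hz⟩, ?_⟩
          show pt ev (pj (-x)) = pt ev (pj x)
          rw [pj_neg hx]
    rw [h1]
    exact acy_pair x
  exact key _ (by
    ext x
    exact ⟨fun hx => ⟨hx, pj x, hx.2, rfl⟩, fun hx => hx.1⟩) hm

/-- closed sets in `RP³` with star-shaped image are acyclic -/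
theorem acy_star (h : CSys F ev) {A : Set RP3} (hA : IsClosed A) {x₀ : RP3} (hx₀ : x₀ ∈ A)
    (hinj : ∀ x ∈ A, ∀ y ∈ A, (∀ g, ev g x = ev g y) → x = y)
    (hst : ∀ z ∈ A, ∀ s t : ℝ, 0 ≤ s → 0 ≤ t → s + t = 1 →
      ∃ y ∈ A, ∀ g, ev g y = s * ev g x₀ + t * ev g z) : Acy (Pm E4) (up A) := by
  have := cptRP3
  have hcA : IsCompact A := isCompact_univ.of_isClosed_subset hA (Set.subset_univ _)
  have hs : StarConvex ℝ (pt ev x₀) (pt ev '' A) := by
    rintro _ ⟨z, hz, rfl⟩ s t hs ht hst'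
    obtain ⟨y, hy, h1⟩ := hst z hz s t hs ht hst'
    refine ⟨y, hy, ?_⟩
    ext i
    have h2 := h1 (EuclideanSpace.single i 1)
    exact h2
  have hac := AS.star_acy (hcA.image (pt_cont h)) ⟨x₀, hx₀, rfl⟩ hs
  have hm : Adm (Pm E4) ∅ (up A) (⊥ : Subgroup (W ≃ᵢ W)) ∅ (pt ev '' A)
      (fun x => pt ev (pj x)) := by
    have h1 := (fib_pt h hA).adm (pt ev '' A)
    have h2 : ov (up A) (fun x => pt ev (pj x)) (pt ev '' A) = up A := by
      ext x
      exact ⟨fun hx => hx.1, fun hx => ⟨hx, pj x, hx.2, rfl⟩⟩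
    rwa [h2] at h1
  exact P33.Acy.of_pull hm (pull_pt_bij h hA hinj hm) hac

variable {lam : W →ₗ[ℝ] ℝ}

/-- `M_3` is acyclic -/
theorem M3_acy (h : TF F ev lam) {Φ : Set W} (hΦ : F3 ev Φ) (hcl : IsClosed (M3 ev Φ)) :
    Acy (Pm E4) (up (M3 ev Φ)) := by
  obtain ⟨x₀, hx₀⟩ := hΦ.ne
  obtain ⟨g₀, hg₀, hr₀⟩ := hΦ.rk
  refine acy_star h.sys hcl (x₀ := x₀) ⟨g₀, hg₀, hx₀ g₀ hg₀, hr₀⟩ ?_ ?_
  · rintro x ⟨g, _, hgx, hgr⟩ y _ hxy
    exact h.inj g hgr x hgx y hxy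
  · rintro z ⟨g, hg, hgz, hgr⟩ s t hs ht hst
    obtain ⟨y, hy, h1⟩ := h.fill g hgr x₀ (hx₀ g hg) z hgz s t hs ht hst
    exact ⟨y, ⟨g, hg, hy, hgr⟩, h1⟩

/-- the common zeros of a face of rank three are acyclic -/
theorem Xz_acy (h : TF F ev lam) {Φ : Set W} (hΦ : F3 ev Φ) : Acy (Pm E4) (up (Xz ev Φ)) := by
  have hcl : IsClosed (Xz ev Φ) := by
    have h1 : Xz ev Φ = ⋂ g ∈ Φ, Zr ev g := by
      ext x
      simp [Xz, Zr]
    rw [h1]
    exact isClosed_biInter fun g _ => isClosed_eq (h.sys.cont g) continuous_const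
  obtain ⟨x₀, hx₀⟩ := hΦ.ne
  obtain ⟨g₀, hg₀, hr₀⟩ := hΦ.rk
  refine acy_star h.sys hcl hx₀ ?_ ?_
  · intro x hx y _ hxy
    exact h.inj g₀ hr₀ x (hx g₀ hg₀) y hxy
  · intro z hz s t hs ht hst
    obtain ⟨y, hy, h1⟩ := h.fill g₀ hr₀ x₀ (hx₀ g₀ hg₀) z (hz g₀ hg₀) s t hs ht hst
    refine ⟨y, fun g hg => ?_, h1⟩
    rw [h1, hx₀ g hg, hz g hg, mul_zero, mul_zero, add_zero]

end C3

end TightRP
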