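import Pool.Agent.Lib.MP_7cdc3e_gt.C.T2.Pjs

/-!
# MP_7cdc3e_gt, C32, T2: the class `w`
-/

set_option autoImplicit false

open Module AS

namespace TightRP

namespace C3

namespace T2h

variable {F : Type} [Field F] {ev : W →ₗ[ℝ] (RP3 → ℝ)} {lam : W →ₗ[ℝ] ℝ}

/-- the product with the sphere -/
def KE (B : Set W) : Set (W × E4) := {p | p.1 ∈ B ∧ p.2 ∈ Sp}

theorem tot_KE {B : Set W} (hB : IsCompact B) : Tot (KE B) B Sp where
  cE := by
    have h1 : KE B = B ×ˢ Sp := by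
      ext p
      exact Iff.rfl
    rw [h1]
    exact hB.prod (isCompact_sphere _ _)
  in2 := ⟨fun p hp => hp.2, fun p hp => ⟨hp.1, neg_mem_Sp hp.2⟩⟩
  cB := hB
  cC := isCompact_sphere _ _
  sC := Set.Subset.refl _
  nC := fun _ hx => neg_mem_Sp hx
  m1 := fun _ hp => hp.1
  m2 := fun _ hp => hp.2

/-- the second projection to the sphere -/
theorem hsp {E : Set (W × E4)} (h : In2 E) : Adm (Pm2 W) ∅ E (Pm E4) ∅ Sp Prod.snd :=
  adm_snd (∅ : Set E4) h.sub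

theorem res_snd {E E' : Set (W × E4)} (hE : E' ⊆ E) (h : Adm (Pm2 W) ∅ E (Pm E4) ∅ Sp Prod.snd)
    (h' : Adm (Pm2 W) ∅ E' (Pm E4) ∅ Sp Prod.snd) {n : ℕ} (x : H (Pm E4) ∅ n Sp) :
    res hE n (pull (Prod.snd : W × E4 → E4) h n x) = pull (Prod.snd : W × E4 → E4) h' n x := by
  obtain ⟨φ, hφ, rfl⟩ := cl_surj x
  rw [pull_cl, res_cl, pull_cl]

theorem res_fst {E E' : Set (W × E4)} {B B' : Set W} (hE : E' ⊆ E) (hB : B' ⊆ B)
    (h : Adm (Pm2 W) ∅ E (⊥ : Subgroup (W ≃ᵢ W)) ∅ B Prod.fst)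
    (h' : Adm (Pm2 W) ∅ E' (⊥ : Subgroup (W ≃ᵢ W)) ∅ B' Prod.fst) {n : ℕ}
    (x : H (⊥ : Subgroup (W ≃ᵢ W)) ∅ n B) :
    res hE n (pull (Prod.fst : W × E4 → W) h n x) =
      pull (Prod.fst : W × E4 → W) h' n (res hB n x) := by
  obtain ⟨φ, hφ, rfl⟩ := cl_surj x
  rw [pull_cl, res_cl, res_cl, pull_cl]

theorem res_fst' {E E' : Set (W × E4)} {B : Set W} (hE : E' ⊆ E)
    (h : Adm (Pm2 W) ∅ E (⊥ : Subgroup (W ≃ᵢ W)) ∅ B Prod.fst)
    (h' : Adm (Pm2 W) ∅ E' (⊥ : Subgroup (W ≃ᵢ W)) ∅ B Prod.fst) {n : ℕ}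
    (x : H (⊥ : Subgroup (W ≃ᵢ W)) ∅ n B) :
    res hE n (pull (Prod.fst : W × E4 → W) h n x) = pull (Prod.fst : W × E4 → W) h' n x := by
  rw [res_fst hE (Set.Subset.refl B) h h', res_self]

theorem ak_eq {E : Set (W × E4)} (h : In2 E) (k : ℕ) :
    ak k h = pw (pull (Prod.snd : W × E4 → E4) (hsp h) 1 a₁) k := by
  rw [← pull_pw, ← ap_eq_pw]
  rfl

/-! ### transport along equalities of subsets of the sphere -/

theorem acy_eq {A A' : Set E4} (h : A = A') : Acy (Pm E4) A → Acy (Pm E4) A' := by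
  subst h
  exact id

theorem bas2_eq {A A' : Set E4} (h : A = A') (h0 : (0 : E4) ∉ A) (h0' : (0 : E4) ∉ A') :
    Bas2 (Pm E4) A 1 (ap 1 A h0) → Bas2 (Pm E4) A' 1 (ap 1 A' h0') := by
  subst h
  exact id

theorem bas3_eq {A A' : Set E4} (h : A = A') (h0 : (0 : E4) ∉ A) (h0' : (0 : E4) ∉ A') :
    Bas3 (Pm E4) A (ap 1 A h0) (ap 2 A h0) → Bas3 (Pm E4) A' (ap 1 A' h0') (ap 2 A' h0') := by
  subst h
  exact id

theorem bas4_eq {A A' : Set E4} (h : A = A') (h0 : (0 : E4) ∉ A) (h0' : (0 : E4) ∉ A') :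
    Bas4 (Pm E4) A (ap 1 A h0) (ap 2 A h0) (ap 3 A h0) →
      Bas4 (Pm E4) A' (ap 1 A' h0') (ap 2 A' h0') (ap 3 A' h0') := by
  subst h
  exact id

/-! ### the maxima are bounded below -/

theorem exists_e (T : TF F ev lam) : ∃ e > 0, ∀ g ∈ E2 ev lam, ∃ x, e < ev g x := by
  refine (E2_cpt T).induction_on (p := fun s => ∃ e > 0, ∀ g ∈ s, ∃ x, e < ev g x) ?_ ?_ ?_ ?_
  · exact ⟨1, one_pos, fun g hg => hg.elim⟩
  · rintro s t hst ⟨e, he, h⟩
    exact ⟨e, he, fun g hg => h g (hst hg)⟩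
  · rintro s t ⟨e, he, h⟩ ⟨e', he', h'⟩
    refine ⟨min e e', lt_min he he', ?_⟩
    rintro g (hg | hg)
    · obtain ⟨x, hx⟩ := h g hg
      exact ⟨x, (min_le_left _ _).trans_lt hx⟩
    · obtain ⟨x, hx⟩ := h' g hg
      exact ⟨x, (min_le_right _ _).trans_lt hx⟩
  · intro g hg
    obtain ⟨x, hx⟩ : ∃ x, 0 < ev g x := by
      by_contra hcon
      push Not at hcon
      apply hg.1.2.1
      apply T.sys.inj
      rw [map_zero]
      funext x
      exact le_antisymm (hcon x) (hg.1.1 x)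
    have h1 : Continuous fun g' : W => ev g' x :=
      (ev_cont T.sys).comp (continuous_id.prodMk continuous_const)
    have h2 : IsOpen {g' : W | ev g x / 2 < ev g' x} := isOpen_lt continuous_const h1
    refine ⟨{g' : W | ev g x / 2 < ev g' x}, mem_nhdsWithin_of_mem_nhds (h2.mem_nhds ?_),
      ev g x / 2, by linarith, fun g' hg' => ⟨x, hg'⟩⟩
    change ev g x / 2 < ev g x
    linarith

theorem adSp : Ad (Pm E4) Sp Sp := by
  have h := ad_up (isClosed_univ (X := RP3))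
  rwa [up_univ] at h

theorem a₁_four (T : TF F ev lam) : pw a₁ 4 = 0 := (pj_ok T).top4 Sp adSp 0 _

/-- **(0.4)** -/
theorem wf_exists (T : TF F ev lam) : ∃ w, WF F ev lam w := by
  obtain ⟨e, he, hmax⟩ := exists_e T
  have hB := E2_cpt T
  have tK := tot_KE hB
  have tP := tot_VE T.sys hB e
  have tN := tot_UE T.sys hB e
  have hPK : VE ev (E2 ev lam) e ⊆ KE (E2 ev lam) := fun p hp => ⟨hp.1, hp.2.1⟩
  have hNK : UE ev (E2 ev lam) e ⊆ KE (E2 ev lam) := fun p hp => ⟨hp.1, hp.2.1⟩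
  have hU : KE (E2 ev lam) = VE ev (E2 ev lam) e ∪ UE ev (E2 ev lam) e := by
    ext p
    constructor
    · rintro ⟨h1, h2⟩
      rcases le_total e (ev p.1 (pj p.2)) with h3 | h3
      · exact Or.inl ⟨h1, h2, h3⟩
      · exact Or.inr ⟨h1, h2, h3⟩
    · rintro (h1 | h1)
      · exact hPK h1
      · exact hNK h1
  have hs := hsp tK.in2
  obtain ⟨w, h1, h2, h3⟩ := rel4 (ff tK) (ff tP) (ff tN) hU hPK hNK
    (pull (Prod.snd : W × E4 → E4) hs 1 a₁)
    (by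
      rw [← pull_pw, a₁_four T, map_zero])
    (by
      intro g hg
      refine bas4_fst tK.in2 hs (bas4_eq (A := Sp) ?_ zero_notMem_Sp _ T.rp)
      ext x
      exact ⟨fun hx => ⟨hg, hx⟩, fun hx => hx.2⟩)
    (by
      intro g hg
      refine acy_fst tP.in2 (acy_eq (fib_VE hg).symm (T.ve g hg.1 e he ?_))
      obtain ⟨x, hx⟩ := hmax g hg
      exact ⟨x, hx.le⟩)
    (by
      intro g hg
      rw [← pull_pw, res_snd hNK hs (hsp tN.in2), res_snd hNK hs (hsp tN.in2), pull_pw]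
      exact bas3_fst tN.in2 (hsp tN.in2) (bas3_eq (fib_UE hg).symm (zero_notMem_up _) _
        (T.ue g hg.1 e he.le (hmax g hg))))
  refine ⟨w, { T with wv := ?_, wr := ?_ }⟩
  · refine ⟨e, he, fun g hg => ?_, fun e' he' hle h => ?_⟩
    · obtain ⟨x, hx⟩ := hmax g hg
      exact ⟨x, hx.le⟩
    · have hsub : VE ev (E2 ev lam) e ⊆ VE ev (E2 ev lam) e' :=
        fun p hp => ⟨hp.1, hp.2.1, hle.trans hp.2.2⟩
      have hacy : ∀ e'', 0 < e'' → e'' ≤ e → ∀ g ∈ E2 ev lam,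
          Acy (Pm2 W) (ov (VE ev (E2 ev lam) e'') Prod.fst {g}) := by
        intro e'' h4 h5 g hg
        refine acy_fst (tot_VE T.sys hB e'').in2 (acy_eq (fib_VE hg).symm (T.ve g hg.1 e'' h4 ?_))
        obtain ⟨x, hx⟩ := hmax g hg
        exact ⟨x, h5.trans hx.le⟩
      obtain ⟨w', hw'⟩ := (LHa (ff h) (fun g hg _ => hacy e' he' hle g hg) 1).2 (ak 1 h.in2)
      have h4 : w' = w := by
        apply (LHa (ff tP) (fun g hg _ => hacy e he le_rfl g hg) 1).1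
        rw [← h1, ← res_fst' hsub (ff h).adE (ff tP).adE, hw', res_snd hPK hs (hsp tP.in2)]
        exact res_snd hsub (hsp h.in2) (hsp tP.in2) a₁
      rw [← hw', h4]
      rfl
  · intro h
    have hsub : TS ev (E2 ev lam) Set.univ ⊆ UE ev (E2 ev lam) e :=
      fun p hp => ⟨hp.1, hp.2.1.1, hp.2.2.le.trans he.le⟩
    refine ⟨?_, h3⟩
    have h5 := congrArg (res hsub 3) h2
    rw [map_add, map_add, res_cup (p := 2) (q := 1) (n := 3) hsub rfl,
      res_cup (p := 1) (q := 2) (n := 3) hsub rfl, res_fst' hsub (ff tN).adE (ff h).adE,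
      res_fst' hsub (ff tN).adE (ff h).adE, res_fst' hsub (ff tN).adE (ff h).adE,
      res_snd hNK hs (hsp tN.in2), res_snd hsub (hsp tN.in2) (hsp h.in2), res_pw, res_pw, res_pw,
      res_pw, res_snd hNK hs (hsp tN.in2), res_snd hsub (hsp tN.in2) (hsp h.in2)] at h5
    rw [ak_eq, h5]
    unfold Tot.c3
    rw [ak_eq, ak_eq, pw_one]
    rfl

end T2h

end C3

end TightRP
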